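import Pool.Agent.Zk6.G.SA

set_option autoImplicit false

/-!
# The zeros off the line and the critical points of all derivatives, in every interval of heights
-/

namespace Pool.Agent.Zk6.G

open Complex Filter Topology
open Pool.Agent.Zk4.G

/-- the data: a function `c` (a logarithmic conductor) which controls `q_0` and the zeros of the high derivatives -/
structure Ctl (K : ℝ) (F : ℂ → ℂ) (c : ℝ → ℝ) : Prop where
  fe : FE F
  one : ∀ y, 1 ≤ c y
  even : ∀ y, c (-y) = c y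
  mono : ∀ x y, 0 ≤ x → x ≤ y → c x ≤ c y
  dbl : ∀ y, 0 ≤ y → c (y + 1) ≤ 2 * c y
  q : ∀ y : ℝ, ‖qq F 0 (⟨1, y⟩ : ℂ)‖ ≤ K * c y
  high : ∀ (n : ℕ) (s : ℂ), K * c s.im ≤ n → iteratedDeriv n F s = 0 → s.re = 0

namespace Ctl

variable {K : ℝ} {F : ℂ → ℂ} {c : ℝ → ℝ}

theorem c_abs (h : Ctl K F c) (y : ℝ) : c |y| = c y := by
  rcases abs_cases y with ⟨h1, _⟩ | ⟨h1, _⟩
  · rw [h1]
  · rw [h1, h.even]

theorem c_le (h : Ctl K F c) {x y : ℝ} (hxy : |x| ≤ |y|) : c x ≤ c y := by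
  rw [← h.c_abs x, ← h.c_abs y]
  exact h.mono _ _ (abs_nonneg _) hxy

/-- the value in an interval -/
theorem c_int (h : Ctl K F c) {a b u : ℝ} (h1 : a ≤ u) (h2 : u ≤ b) : c u ≤ c a + c b := by
  have ha := h.one a
  have hb := h.one b
  rcases le_or_gt 0 u with h3 | h3
  · have := h.c_le (x := u) (y := b) (by rw [abs_of_nonneg h3]; exact h2.trans (le_abs_self b))
    linarith
  · have := h.c_le (x := u) (y := a) (by
      rw [abs_of_neg h3]
      have := neg_le_abs a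
      linarith)
    linarith

theorem c_near (h : Ctl K F c) {a b u v : ℝ} (h1 : a ≤ u) (h2 : u ≤ b) (h3 : |v - u| ≤ 1) :
    c v ≤ 2 * (c a + c b) := by
  have h4 : |v| ≤ |(|u| + 1)| := by
    rw [abs_of_nonneg (by positivity : 0 ≤ |u| + 1)]
    have := abs_sub_abs_le_abs_sub v u
    linarith
  have h5 := h.c_le h4
  have h6 := h.dbl |u| (abs_nonneg u)
  rw [h.c_abs] at h6
  have h7 := h.c_int h1 h2
  linarith

theorem MT_zero (h : Ctl K F c) (hK : 0 < K) {a b : ℝ} {j : ℕ} (hj : 2 * K * (c a + c b) ≤ j) :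
    MT F j a b = 0 := by
  unfold MT
  refine finsum_mem_eq_zero_of_forall_eq_zero ?_
  rintro s ⟨⟨h1, h2, h3⟩, h4⟩
  exfalso
  apply h4
  refine h.high j s ?_ h1
  have h5 := h.c_int h2.le h3
  have h6 : 0 ≤ c a + c b := by linarith [h.one a, h.one b]
  nlinarith

theorem VT_zero (h : Ctl K F c) (hK : 0 < K) {a b : ℝ} {j : ℕ} (hj : 2 * K * (c a + c b) ≤ j) :
    VT F j a b = 0 := by
  unfold VT
  refine finsum_mem_eq_zero_of_forall_eq_zero ?_
  rintro u ⟨h1, h2, h3, h4⟩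
  by_contra hw
  obtain ⟨s, h5, h6, h7⟩ := t_A7 h.fe j 0 u (by simpa using h3) (by simpa using h4) (by simpa using hw)
  apply h6
  refine h.high j s ?_ h5
  have := h.fe
  have h8 := abs_le.1 (strip F j s h5)
  have h9 : |s.im - u| ≤ 1 := by
    apply abs_le_of_sq_le_sq _ (by norm_num)
    norm_num at h7
    nlinarith
  have h10 := h.c_near h1.le h2 h9
  nlinarith

end Ctl

/-- the constant -/
noncomputable def CF (K : ℝ) : ℝ := CA * (3 * K + 2) + 2 * K

theorem fin (K : ℝ) (hK : 0 < K) (F : ℂ → ℂ) (c : ℝ → ℝ) (h : Ctl K F c) (a b : ℝ) (hab : a ≤ b) :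
    (∀ j : ℕ, CF K * (c a + c b) ≤ j → VT F j a b = 0 ∧ MT F j a b = 0) ∧
    ∀ n : ℕ, |(MT F n a b : ℝ) - 2 * ((∑ᶠ j, VT F (n + j) a b : ℕ) : ℝ)| ≤ CF K * (c a + c b) := by
  have hCA : 0 < CA := by unfold CA; norm_num
  have ha := h.one a
  have hb := h.one b
  set B : ℝ := c a + c b with hB
  have hB2 : 2 ≤ B := by rw [hB]; linarith
  have hCF : 2 * K * B ≤ CF K * B := by
    apply mul_le_mul_of_nonneg_right _ (by linarith)
    unfold CF
    have : 0 ≤ CA * (3 * K + 2) := by positivity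
    linarith
  have hCF0 : 0 ≤ CF K * B := by
    have : 0 ≤ 2 * K * B := by positivity
    linarith
  refine ⟨fun j hj => ⟨h.VT_zero hK (hCF.trans hj), h.MT_zero hK (hCF.trans hj)⟩, fun n => ?_⟩
  set k0 : ℕ := ⌈2 * K * B⌉₊ with hk0
  have hk1 : 2 * K * B ≤ k0 := Nat.le_ceil _
  have hk2 : (k0 : ℝ) < 2 * K * B + 1 := Nat.ceil_lt_add_one (by positivity)
  have hV : ∀ j : ℕ, k0 ≤ j → VT F j a b = 0 := fun j hj =>
    h.VT_zero hK (hk1.trans (by exact_mod_cast hj))
  have hM : ∀ j : ℕ, k0 ≤ j → MT F j a b = 0 := fun j hj =>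
    h.MT_zero hK (hk1.trans (by exact_mod_cast hj))
  rcases le_or_gt k0 n with hn | hn
  · have h1 : ∑ᶠ j, VT F (n + j) a b = 0 := by
      refine finsum_eq_zero_of_forall_eq_zero fun j => hV _ (by omega)
    rw [h1, hM n hn]
    simpa using hCF0
  · have h1 : ∑ᶠ j, VT F (n + j) a b = ∑ j ∈ Finset.range (k0 - n), VT F (n + j) a b := by
      refine finsum_eq_sum_of_support_subset _ fun j hj => ?_
      rw [Function.mem_support] at hj
      rw [Finset.coe_range, Set.mem_Iio]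
      by_contra hcon
      push Not at hcon
      exact hj (hV _ (by omega))
    have h2 := t_SA6 h.fe a b n (k0 - n) hab
    have h3 : n + (k0 - n) = k0 := by omega
    rw [h3, hM k0 le_rfl] at h2
    rw [h1]
    push_cast
    rw [Nat.cast_zero, sub_zero] at h2
    refine h2.trans ?_
    have q1 := h.q a
    have q2 := h.q b
    have h4 : ‖qq F 0 (⟨1, a⟩ : ℂ)‖ + ‖qq F 0 (⟨1, b⟩ : ℂ)‖ + (k0 : ℝ) + 1 ≤ (3 * K + 2) * B := by
      have : K * c a + K * c b = K * B := by rw [hB]; ring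
      nlinarith
    calc CA * (‖qq F 0 (⟨1, a⟩ : ℂ)‖ + ‖qq F 0 (⟨1, b⟩ : ℂ)‖ + (k0 : ℝ) + 1) ≤ CA * ((3 * K + 2) * B) :=
          mul_le_mul_of_nonneg_left h4 hCA.le
      _ ≤ CF K * B := by
          unfold CF
          have : 0 ≤ 2 * K * B := by positivity
          nlinarith

/-- a critical point of order `n + k` of positive weight has a zero of `f_n` off the line near it -/
theorem fin_near (K : ℝ) (F : ℂ → ℂ) (c : ℝ → ℝ) (h : Ctl K F c) : S_A7 F := t_A7 h.fe

end Pool.Agent.Zk6.G
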