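import Pool.Agent.Zk6.G.Trf

set_option autoImplicit false

/-!
# The seven statements for the completed L-functions
-/

namespace Pool.Agent.Zk6.G

open Complex Filter Topology
open Pool.Agent.Zk4.G
open Pool.Agent.Zk4.G.Sc

/-- `t` is a critical point of order `j` -/
def IsCritical (x : ℝ) (Λ : ℂ → ℂ) (j : ℕ) (t : ℝ) : Prop :=
  iteratedDeriv j Λ (x + I * t) ≠ 0 ∧ iteratedDeriv (j + 1) Λ (x + I * t) = 0

/-- the seven statements -/
structure FP7 (C x : ℝ) (ℓ : ℝ → ℝ) (Λ : ℂ → ℂ) : Prop where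
  finite : ∀ (n : ℕ) (a b : ℝ), (off x Λ n a b).Finite ∧ {t : ℝ | a < t ∧ t ≤ b ∧ IsCritical x Λ n t}.Finite ∧
    {j : ℕ | V x Λ j a b ≠ 0}.Finite
  count : ∀ (n : ℕ) (a b : ℝ), a ≤ b → |(M x Λ n a b : ℝ) - 2 * W x Λ n a b| ≤ C * (ℓ a + ℓ b)
  exact : ∀ (n : ℕ) (a b : ℝ), a < b →
    (∀ s : ℂ, iteratedDeriv n Λ s = 0 → s.re ≠ x → C * ℓ a * (s.re - x) ^ 2 < (s.im - a) ^ 2) →
    (∀ s : ℂ, iteratedDeriv n Λ s = 0 → s.re ≠ x → C * ℓ b * (s.re - x) ^ 2 < (s.im - b) ^ 2) →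
    M x Λ n a b = 2 * W x Λ n a b
  near : ∀ (n k : ℕ) (t : ℝ), IsCritical x Λ (n + k) t → weight x Λ (n + k) t ≠ 0 →
    ∃ s : ℂ, iteratedDeriv n Λ s = 0 ∧ s.re ≠ x ∧ |s.im - t| ≤ Real.sqrt (k + 1) * |s.re - x|
  order : ∀ (j : ℕ) (t : ℝ), IsCritical x Λ j t → weight x Λ j t ≠ 0 → (j : ℝ) < C * ℓ t
  grh : (∀ s : ℂ, Λ s = 0 → s.re = x) ↔ ∀ (j : ℕ) (t : ℝ), IsCritical x Λ j t → weight x Λ j t = 0
  finitely : ∀ n : ℕ, {s : ℂ | iteratedDeriv n Λ s = 0 ∧ s.re ≠ x}.Finite ↔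
    {p : ℕ × ℝ | n ≤ p.1 ∧ IsCritical x Λ p.1 p.2 ∧ weight x Λ p.1 p.2 ≠ 0}.Finite

variable {K x : ℝ} {F Λ : ℂ → ℂ} {u : ℂ} {c ℓ : ℝ → ℝ}

theorem trf7 (H : Scl x Λ F u) (h : Ctl K F c) (hK : 0 < K) (hx : S_Ex F) (hs : Slow c)
    (hl : ∀ T, c (T / 3) ≤ 2 * ℓ T) : FP7 (CT K) x ℓ Λ := by
  have hF := h.fe
  have P := trf H h hK hx hs hl
  have hCF0 : 0 < CF K := by unfold CF CA; positivity
  have hCT2 : 4 * K + 3 ≤ CT K := by unfold CT; linarith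
  have hℓ : ∀ T, 1 / 2 ≤ ℓ T := fun T => by
    have := hl T
    have := h.one (T / 3)
    linarith
  refine ⟨fun n a b => ⟨?_, ?_, ?_⟩, P.count, ?_, ?_, ?_, ?_, ?_⟩
  · have e : off x Λ n a b = off x Λ n (3 * (a / 3)) (3 * (b / 3)) := by
      congr 1 <;> ring
    rw [e, H.off]
    exact ((zfin hF n _ _).subset fun s hs => hs.1).image _
  · have h1 := zfin hF (n + 1) (a / 3) (b / 3)
    have h2 : (fun t : ℝ => (I * ((t / 3 : ℝ) : ℂ) : ℂ)) '' {t : ℝ | a < t ∧ t ≤ b ∧ IsCritical x Λ n t} ⊆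
        zs F (n + 1) (a / 3) (b / 3) := by
      rintro _ ⟨t, ⟨h1, h2, _, h4⟩, rfl⟩
      refine ⟨(gn_zero hF (n + 1) (t / 3)).1 ((H.gn hF (n + 1) t).2 h4), ?_, ?_⟩
      · simp only [mul_im, I_re, ofReal_im, mul_zero, I_im, ofReal_re, one_mul, zero_add]
        linarith
      · simp only [mul_im, I_re, ofReal_im, mul_zero, I_im, ofReal_re, one_mul, zero_add]
        linarith
    refine Set.Finite.of_finite_image (h1.subset h2) ?_
    intro p _ q _ hpq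
    have h3 : (I * ((p / 3 : ℝ) : ℂ)) = I * ((q / 3 : ℝ) : ℂ) := hpq
    have h4 := mul_left_cancel₀ I_ne_zero h3
    have h5 : p / 3 = q / 3 := by exact_mod_cast h4
    linarith
  · refine (Set.finite_lt_nat ⌈2 * K * (c (a / 3) + c (b / 3))⌉₊).subset ?_
    intro j hj
    by_contra hcon
    have hcon' : ⌈2 * K * (c (a / 3) + c (b / 3))⌉₊ ≤ j := by
      by_contra h5
      exact hcon (not_le.1 h5)
    apply hj
    rw [H.V' hF]
    refine h.VT_zero hK ((Nat.le_ceil _).trans ?_)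
    exact_mod_cast hcon'
  · intro n a b hab ha hb
    rw [H.M', H.W' hF]
    have key : ∀ T : ℝ, (∀ s : ℂ, iteratedDeriv n Λ s = 0 → s.re ≠ x → CT K * ℓ T * (s.re - x) ^ 2 < (s.im - T) ^ 2) →
        Fr ((2 * K + 1) * c (T / 3)) F n (T / 3) := by
      intro T hT z hz1 hz2
      have h1 := hT (x + 3 * z) ((H.zero n z).1 hz1)
      have e1 : ((x : ℂ) + 3 * z).re = x + 3 * z.re := aff_re x z
      have e2 : ((x : ℂ) + 3 * z).im = 3 * z.im := aff_im x z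
      rw [e1, e2] at h1
      have h2 := h1 (by intro h3; apply hz2; linarith)
      have e3 : (x + 3 * z.re - x) ^ 2 = 9 * z.re ^ 2 := by ring
      have e4 : (3 * z.im - T) ^ 2 = 9 * (z.im - T / 3) ^ 2 := by ring
      rw [e3, e4] at h2
      have h5 : (2 * K + 1) * c (T / 3) ≤ CT K * ℓ T := by
        have h6 : (2 * K + 1) * c (T / 3) ≤ (2 * K + 1) * (2 * ℓ T) :=
          mul_le_mul_of_nonneg_left (hl T) (by linarith)
        have h8 : (4 * K + 2) * ℓ T ≤ CT K * ℓ T := mul_le_mul_of_nonneg_right (by linarith) (by linarith [hℓ T])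
        linarith
      have h6 : (2 * K + 1) * c (T / 3) * z.re ^ 2 ≤ CT K * ℓ T * z.re ^ 2 :=
        mul_le_mul_of_nonneg_right h5 (sq_nonneg _)
      linarith
    exact h.exact hK hx (by linarith) (key a ha) (key b hb)
  · intro n k t hc hw
    obtain ⟨s, h1, h2, h3⟩ := P.near n k t hc.1 hc.2 hw
    refine ⟨s, h1, h2, ?_⟩
    have h4 : (s.im - t) ^ 2 ≤ (Real.sqrt (k + 1) * |s.re - x|) ^ 2 := by
      rw [mul_pow, Real.sq_sqrt (by positivity), sq_abs]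
      exact h3
    exact abs_le_of_sq_le_sq h4 (by positivity)
  · intro j t hc hw
    exact P.order j t hc.1 hc.2 hw
  · rw [P.rh]
    exact ⟨fun h1 j t h2 => h1 j t h2.1 h2.2, fun h1 j t h2 h3 => h1 j t ⟨h2, h3⟩⟩
  · intro n
    rw [P.fin n]
    have e : {p : ℕ × ℝ | n ≤ p.1 ∧ iteratedDeriv p.1 Λ (x + I * p.2) ≠ 0 ∧
        iteratedDeriv (p.1 + 1) Λ (x + I * p.2) = 0 ∧ weight x Λ p.1 p.2 ≠ 0} =
        {p : ℕ × ℝ | n ≤ p.1 ∧ IsCritical x Λ p.1 p.2 ∧ weight x Λ p.1 p.2 ≠ 0} := by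
      ext p
      constructor
      · rintro ⟨a1, a2, a3, a4⟩
        exact ⟨a1, ⟨a2, a3⟩, a4⟩
      · rintro ⟨a1, ⟨a2, a3⟩, a4⟩
        exact ⟨a1, a2, a3, a4⟩
    rw [e]

/-- larger constants -/
theorem FP7.mono {C C' : ℝ} (hC : C ≤ C') (h0 : ∀ T, 0 ≤ ℓ T) (h : FP7 C x ℓ Λ) : FP7 C' x ℓ Λ := by
  refine ⟨h.finite, fun n a b hab => (h.count n a b hab).trans
    (mul_le_mul_of_nonneg_right hC (by linarith [h0 a, h0 b])), fun n a b hab ha hb => ?_, h.near,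
    fun j t hc hw => (h.order j t hc hw).trans_le (mul_le_mul_of_nonneg_right hC (h0 t)), h.grh, h.finitely⟩
  refine h.exact n a b hab (fun s hs hs2 => lt_of_le_of_lt ?_ (ha s hs hs2)) (fun s hs hs2 => lt_of_le_of_lt ?_ (hb s hs hs2))
  · exact mul_le_mul_of_nonneg_right (mul_le_mul_of_nonneg_right hC (h0 a)) (sq_nonneg _)
  · exact mul_le_mul_of_nonneg_right (mul_le_mul_of_nonneg_right hC (h0 b)) (sq_nonneg _)

end Pool.Agent.Zk6.G
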