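import Mathlib

set_option autoImplicit false

/-!
# An entire function with two symmetries is no exponential, nor are its derivatives
-/

namespace Pool.Agent.Zk6.G

open Complex Filter Topology

theorem dif {F : ℂ → ℂ} (hF : Differentiable ℂ F) (n : ℕ) : Differentiable ℂ (iteratedDeriv n F) :=
  (hF.contDiff (n := ((n + 1 : ℕ) : WithTop ℕ∞))).differentiable_iteratedDeriv n
    (by exact_mod_cast Nat.lt_succ_self n)

/-- the reflection `z ↦ -conj z` -/
theorem sym1 {g : ℂ → ℂ} (hg : Differentiable ℂ g) (c : ℂ)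
    (hs : ∀ z, g (-((starRingEnd ℂ) z)) = c * (starRingEnd ℂ) (g z)) (z : ℂ) :
    deriv g (-((starRingEnd ℂ) z)) = -c * (starRingEnd ℂ) (deriv g z) := by
  have h1 : HasDerivAt (fun x : ℂ => g x) (deriv g z) z := (hg z).hasDerivAt
  have h2 : HasDerivAt ((starRingEnd ℂ) ∘ g ∘ (starRingEnd ℂ)) ((starRingEnd ℂ) (deriv g z))
      ((starRingEnd ℂ) z) := h1.conj_conj
  have h3 : HasDerivAt (fun x : ℂ => g (-x)) (deriv g (-((starRingEnd ℂ) z)) * (-1))
      ((starRingEnd ℂ) z) :=
    HasDerivAt.comp ((starRingEnd ℂ) z) (hg _).hasDerivAt (hasDerivAt_neg _)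
  have h4 : (fun x : ℂ => g (-x)) = fun x => c * ((starRingEnd ℂ) ∘ g ∘ (starRingEnd ℂ)) x := by
    funext x
    have := hs ((starRingEnd ℂ) x)
    rw [Complex.conj_conj] at this
    rw [this]; rfl
  rw [h4] at h3
  have h5 := (h2.const_mul c).unique h3
  linear_combination h5

/-- the reflection `z ↦ conj z` -/
theorem sym2 {g : ℂ → ℂ} (hg : Differentiable ℂ g) (c : ℂ)
    (hs : ∀ z, g ((starRingEnd ℂ) z) = c * (starRingEnd ℂ) (g z)) (z : ℂ) :
    deriv g ((starRingEnd ℂ) z) = c * (starRingEnd ℂ) (deriv g z) := by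
  have h1 : HasDerivAt (fun x : ℂ => g x) (deriv g z) z := (hg z).hasDerivAt
  have h2 : HasDerivAt ((starRingEnd ℂ) ∘ g ∘ (starRingEnd ℂ)) ((starRingEnd ℂ) (deriv g z))
      ((starRingEnd ℂ) z) := h1.conj_conj
  have h3 : HasDerivAt g (deriv g ((starRingEnd ℂ) z)) ((starRingEnd ℂ) z) := (hg _).hasDerivAt
  have h4 : g = fun x => c * ((starRingEnd ℂ) ∘ g ∘ (starRingEnd ℂ)) x := by
    funext x
    have := hs ((starRingEnd ℂ) x)
    rw [Complex.conj_conj] at this
    rw [this]; rfl
  have h5 := (h2.const_mul c)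
  rw [← h4] at h5
  exact h3.unique h5

theorem sym1_iter {F : ℂ → ℂ} (hF : Differentiable ℂ F) (hs : ∀ z, F (-((starRingEnd ℂ) z)) = (starRingEnd ℂ) (F z))
    (n : ℕ) : ∀ z, iteratedDeriv n F (-((starRingEnd ℂ) z)) = (-1) ^ n * (starRingEnd ℂ) (iteratedDeriv n F z) := by
  induction n with
  | zero => intro z; simpa using hs z
  | succ n ih =>
    intro z
    rw [iteratedDeriv_succ, sym1 (dif hF n) ((-1) ^ n) ih z]
    ring

theorem sym2_iter {F : ℂ → ℂ} (hF : Differentiable ℂ F) {e : ℂ}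
    (hs : ∀ z, F ((starRingEnd ℂ) z) = e * (starRingEnd ℂ) (F z))
    (n : ℕ) : ∀ z, iteratedDeriv n F ((starRingEnd ℂ) z) = e * (starRingEnd ℂ) (iteratedDeriv n F z) := by
  induction n with
  | zero => intro z; simpa using hs z
  | succ n ih =>
    intro z
    rw [iteratedDeriv_succ, sym2 (dif hF n) e ih z]

/-- a solution of `g' = c g` is an exponential -/
theorem expo {g : ℂ → ℂ} (hg : Differentiable ℂ g) {c : ℂ} (h : ∀ z, deriv g z = c * g z) (z : ℂ) :
    g z = g 0 * Complex.exp (c * z) := by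
  set k : ℂ → ℂ := fun z => g z * Complex.exp (-(c * z)) with hk
  have hkd : ∀ z, HasDerivAt k 0 z := by
    intro z
    have h1 : HasDerivAt g (c * g z) z := by
      rw [← h z]
      exact (hg z).hasDerivAt
    have h2 : HasDerivAt (fun z : ℂ => -(c * z)) (-(c * 1)) z := ((hasDerivAt_id z).const_mul c).neg
    have h3 := h1.mul h2.cexp
    refine h3.congr_deriv ?_
    ring
  have h1 : k z = k 0 := by
    refine is_const_of_deriv_eq_zero (fun z => (hkd z).differentiableAt) (fun z => (hkd z).deriv) z 0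
  simp only [hk, mul_zero, neg_zero, Complex.exp_zero, mul_one] at h1
  rw [← h1, mul_assoc, ← Complex.exp_add]
  simp

/-- two symmetries and no double zeros on the real line for arbitrarily high derivatives: no derivative is an exponential -/
theorem ne_of_line {F : ℂ → ℂ} (hF : Differentiable ℂ F) (hs : ∀ z, F (-((starRingEnd ℂ) z)) = (starRingEnd ℂ) (F z))
    (hc : ∃ e : ℂ, ‖e‖ = 1 ∧ ∀ z, F ((starRingEnd ℂ) z) = e * (starRingEnd ℂ) (F z))
    (hl : ∀ n : ℕ, ∃ m, n ≤ m ∧ ∀ z : ℂ, z.im = 0 → iteratedDeriv m F z = 0 → iteratedDeriv (m + 1) F z ≠ 0) :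
    ∀ (n : ℕ) (c : ℂ), ∃ z : ℂ, iteratedDeriv (n + 1) F z ≠ c * iteratedDeriv n F z := by
  intro n c
  by_contra hcon
  push Not at hcon
  obtain ⟨e, he, hs2⟩ := hc
  set g : ℂ → ℂ := iteratedDeriv n F with hg
  have hgd : Differentiable ℂ g := dif hF n
  have hgc : ∀ z, deriv g z = c * g z := by
    intro z
    have := hcon z
    rw [iteratedDeriv_succ] at this
    exact this
  have hexp := expo hgd hgc
  -- higher derivatives vanish if one of them does
  have hzero : ∀ j : ℕ, (∀ z, iteratedDeriv j F z = 0) → False := by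
    intro j hj
    have hall : ∀ m : ℕ, j ≤ m → ∀ z, iteratedDeriv m F z = 0 := by
      intro m hm
      induction m, hm using Nat.le_induction with
      | base => exact hj
      | succ m _ ih =>
        intro z
        have : iteratedDeriv m F = fun _ => (0 : ℂ) := funext ih
        rw [iteratedDeriv_succ, this, deriv_const]
    obtain ⟨m, hm, h⟩ := hl j
    exact h 0 (by simp) (hall m hm 0) (hall (m + 1) (by omega) 0)
  have h0 : g 0 ≠ 0 := by
    intro h0
    refine hzero n fun z => ?_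
    have := hexp z
    rw [h0, zero_mul] at this
    exact this
  -- the symmetries give `c = 0`
  have n1 : ∀ z, ‖g (-((starRingEnd ℂ) z))‖ = ‖g z‖ := by
    intro z
    rw [hg, sym1_iter hF hs n z, norm_mul, norm_pow, norm_neg, norm_one, one_pow, one_mul, RCLike.norm_conj]
  have n2 : ∀ z, ‖g ((starRingEnd ℂ) z)‖ = ‖g z‖ := by
    intro z
    rw [hg, sym2_iter hF hs2 n z, norm_mul, he, one_mul, RCLike.norm_conj]
  have n3 : ∀ z, ‖g z‖ = ‖g 0‖ * Real.exp (c * z).re := by
    intro z
    rw [hexp z, norm_mul, Complex.norm_exp]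
  have hpos : 0 < ‖g 0‖ := norm_pos_iff.2 h0
  have n4 : ∀ z : ℂ, ‖g z‖ = ‖g (-z)‖ := by
    intro z
    have h1 := n1 ((starRingEnd ℂ) z)
    rw [Complex.conj_conj, n2] at h1
    exact h1.symm
  have n5 : ∀ z : ℂ, (c * z).re = 0 := by
    intro z
    have h1 := n4 z
    rw [n3, n3 (-z)] at h1
    have h2 := mul_left_cancel₀ hpos.ne' h1
    have h3 := Real.exp_injective h2
    rw [mul_neg, Complex.neg_re] at h3
    linarith
  have hc0 : c = 0 := by
    apply Complex.ext
    · have := n5 1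
      simpa using this
    · have := n5 I
      simpa using this
  refine hzero (n + 1) fun z => ?_
  rw [iteratedDeriv_succ]
  rw [hgc z, hc0, zero_mul]

end Pool.Agent.Zk6.G
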