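import Pool.Agent.Zk4.G.U

set_option autoImplicit false

/-!
# Part A7: each critical point has a zero off the line near it (class `FE`)

The full Jensen circles, the drift under `k` derivatives, and the weight of a critical point without zeros off the line nearby.
-/

namespace Pool.Agent.Zk6.G

open Complex Filter Topology MeasureTheory Set Polynomial
open Pool.Agent.Zk4.G
open Pool.Agent.H24R2.DZ.CirAux (tlu_deriv gl_strip signM symm_deriv open_const const_contr hopf)

variable {F : ℂ → ℂ}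

theorem iter_diff (hF : FE F) (n : ℕ) : Differentiable ℂ (iteratedDeriv n F) :=
  Pool.Agent.H24R2.JP.ParCircAux.diff_iter hF.diff n

theorem iter_has (hF : FE F) (n : ℕ) (z : ℂ) : HasDerivAt (iteratedDeriv n F) (iteratedDeriv (n + 1) F z) z := by
  rw [iteratedDeriv_succ]
  exact (iter_diff hF n z).hasDerivAt

/-- no derivative vanishes identically -/
theorem iter_ne (hF : FE F) (n : ℕ) : ∃ z : ℂ, iteratedDeriv n F z ≠ 0 := by
  by_contra hcon
  push Not at hcon
  obtain ⟨z, hz⟩ := hF.ne n 0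
  apply hz
  have h : iteratedDeriv n F = fun _ => 0 := funext hcon
  rw [iteratedDeriv_succ, h]
  simp

theorem approx (hF : FE F) (n : ℕ) : ∃ Q : ℕ → ℂ[X],
    (∀ᶠ N in atTop, Q N ≠ 0 ∧ ∀ z : ℂ, (Q N).IsRoot z → |z.re| ≤ 1 / 2) ∧
    TendstoLocallyUniformly (fun (N : ℕ) (z : ℂ) => (Q N).eval z) (iteratedDeriv n F) atTop := by
  have hnz : ∀ (n : ℕ) (Q : ℕ → ℂ[X]), TendstoLocallyUniformly (fun (N : ℕ) (z : ℂ) => (Q N).eval z)
      (iteratedDeriv n F) atTop → ∀ᶠ N in atTop, Q N ≠ 0 := by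
    intro n Q hQ
    obtain ⟨z, hz⟩ := iter_ne hF n
    have h1 := (tendstoLocallyUniformlyOn_univ.2 hQ).tendsto_at (Set.mem_univ z)
    filter_upwards [h1.eventually_ne hz] with N hN h0
    rw [h0] at hN
    simp at hN
  induction n with
  | zero =>
    obtain ⟨Q, hQ1, hQ2⟩ := hF.app
    refine ⟨Q, ?_, by simpa using hQ2⟩
    filter_upwards [hnz 0 Q (by simpa using hQ2)] with N hN
    exact ⟨hN, hQ1 N⟩
  | succ n ih =>
    obtain ⟨Q, hQ1, hQ2⟩ := ih
    have h3 : TendstoLocallyUniformly (fun (N : ℕ) (z : ℂ) => (derivative (Q N)).eval z)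
        (iteratedDeriv (n + 1) F) atTop := by
      rw [iteratedDeriv_succ]
      exact tlu_deriv hQ2
    refine ⟨fun N => derivative (Q N), ?_, h3⟩
    filter_upwards [hQ1, hnz (n + 1) (fun N => derivative (Q N)) h3] with N hN1 hN2
    exact ⟨hN2, fun z hz => gl_strip (Q N) hN2 hN1.2 z hz⟩

theorem symm_iter (hF : FE F) (n : ℕ) : ∀ z, iteratedDeriv n F (-((starRingEnd ℂ) z)) =
    (-1) ^ n * (starRingEnd ℂ) (iteratedDeriv n F z) := by
  induction n with
  | zero =>
    intro z
    simp only [iteratedDeriv_zero, pow_zero, one_mul]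
    exact hF.symm z
  | succ n ih =>
    intro z
    rw [iteratedDeriv_succ, symm_deriv (iter_diff hF n) ((-1) ^ n) ih z]
    ring

/-- the logarithmic derivative of `f_n` is not locally constant -/
theorem not_const (hF : FE F) (n : ℕ) {a c : ℂ} (ha : iteratedDeriv n F a ≠ 0)
    (h : ∀ᶠ z in 𝓝 a, deriv (iteratedDeriv n F) z / iteratedDeriv n F z = c) : False := by
  have hga : ∀ᶠ z in 𝓝 a, iteratedDeriv n F z ≠ 0 := (iter_diff hF n).continuous.continuousAt.eventually_ne ha
  have h1 : deriv (iteratedDeriv n F) =ᶠ[𝓝 a] fun z => c * iteratedDeriv n F z := by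
    filter_upwards [hga, h] with z h2 h3
    rw [← h3]; field_simp
  have hdg : Differentiable ℂ (deriv (iteratedDeriv n F)) := by
    rw [← iteratedDeriv_succ]
    exact iter_diff hF (n + 1)
  have h2 : deriv (iteratedDeriv n F) = fun z => c * iteratedDeriv n F z :=
    AnalyticOnNhd.eq_of_eventuallyEq (fun z _ => hdg.analyticAt z)
      (fun z _ => ((iter_diff hF n).const_mul c).analyticAt z) h1
  obtain ⟨z, hz⟩ := hF.ne n c
  apply hz
  rw [iteratedDeriv_succ]
  exact congrFun h2 z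

/-- Jensen circles, with the full inequality -/
theorem circ (hF : FE F) (n : ℕ) (w : ℂ) (hw : iteratedDeriv (n + 1) F w = 0) (hwre : w.re ≠ 0) :
    ∃ z : ℂ, iteratedDeriv n F z = 0 ∧ z.re ≠ 0 ∧ w.re ^ 2 + (w.im - z.im) ^ 2 ≤ z.re ^ 2 := by
  set g : ℂ → ℂ := iteratedDeriv n F with hg
  have hgd : Differentiable ℂ g := iter_diff hF n
  have hdg : deriv g = iteratedDeriv (n + 1) F := by rw [hg, iteratedDeriv_succ]
  have hw1' : deriv g w = 0 := by rw [hdg]; exact hw
  by_cases hgw : g w = 0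
  · exact ⟨w, hgw, hwre, by simp⟩
  by_contra hcon
  push Not at hcon
  have hJ : ∀ z : ℂ, |z.re| ≤ 1 / 2 → w.re ^ 2 + (w.im - z.im) ^ 2 ≤ z.re ^ 2 → g z ≠ 0 := by
    intro z _ hz2 hz3
    by_cases hre : z.re = 0
    · rw [hre] at hz2
      have h1 : 0 < w.re ^ 2 := by positivity
      have h2 : 0 ≤ (w.im - z.im) ^ 2 := sq_nonneg _
      nlinarith
    · exact absurd hz2 (not_le.2 (hcon z hz3 hre))
  obtain ⟨Q, hQ1, hQ2⟩ := approx hF n
  have hM := signM hgd ((-1) ^ n) (by simp) (symm_iter hF n) hQ1 hQ2 w hgw hJ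
  have hfan : ∀ a : ℂ, g a ≠ 0 → AnalyticAt ℂ (fun z => deriv g z / g z) a := by
    intro a ha
    exact ((hgd.analyticAt a).deriv).div (hgd.analyticAt a) ha
  have hnear : ∀ᶠ z in 𝓝 w, 0 ≤ w.re * ((fun z => deriv g z / g z) z).re := by
    have h2 : ∀ᶠ z : ℂ in 𝓝 w, 0 < w.re * z.re := by
      have h3 : Continuous fun z : ℂ => w.re * z.re := by fun_prop
      apply (h3.tendsto _).eventually
      apply lt_mem_nhds
      exact mul_self_pos.2 hwre
    filter_upwards [hM, h2] with z h3 h4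
    by_contra hc
    push Not at hc
    have h5 : 0 ≤ (w.re * z.re) * (z.re * (deriv g z / g z).re) := mul_nonneg h4.le h3
    have h6 : (w.re * z.re) * (z.re * (deriv g z / g z).re) =
        (w.re * (deriv g z / g z).re) * z.re ^ 2 := by ring
    have h7 : z.re ≠ 0 := by
      intro h8; rw [h8] at h4; simp at h4
    have h8 : 0 < z.re ^ 2 := by positivity
    rw [h6] at h5
    nlinarith
  have hoc := open_const (f := fun z => deriv g z / g z) (hfan _ hgw)
    (by simp only [hw1', zero_div, Complex.zero_re]) hwre hnear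
  exact not_const hF n hgw hoc

/-- a zero of `f_(n+k)` off the line comes from a zero of `f_n` off the line -/
theorem drift2 (hF : FE F) (n k : ℕ) : ∀ w : ℂ, iteratedDeriv (n + k) F w = 0 → w.re ≠ 0 →
    ∃ s : ℂ, iteratedDeriv n F s = 0 ∧ s.re ≠ 0 ∧ w.re ^ 2 ≤ s.re ^ 2 ∧
      (w.im - s.im) ^ 2 ≤ k * (s.re ^ 2 - w.re ^ 2) := by
  induction k with
  | zero =>
    intro w hw hre
    exact ⟨w, hw, hre, le_rfl, by simp⟩
  | succ k ih =>
    intro w hw hre
    obtain ⟨z, hz1, hz2, hz3⟩ := circ hF (n + k) w hw hre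
    obtain ⟨s, h1, h2, h3, h4⟩ := ih z hz1 hz2
    refine ⟨s, h1, h2, by nlinarith [sq_nonneg (w.im - z.im)], ?_⟩
    set a := w.im - z.im with ha
    set b := z.im - s.im with hb
    set c := s.re ^ 2 - z.re ^ 2 with hc
    have hc0 : 0 ≤ c := by rw [hc]; linarith
    have hk : (0 : ℝ) ≤ k := Nat.cast_nonneg _
    have e : w.im - s.im = a + b := by rw [ha, hb]; ring
    have h5 : 2 * (a * b) ≤ k * a ^ 2 + c := by
      have h6 : (2 * (a * b)) ^ 2 ≤ (k * a ^ 2 + c) ^ 2 := by
        have h7 : a ^ 2 * b ^ 2 ≤ a ^ 2 * (k * c) := mul_le_mul_of_nonneg_left h4 (sq_nonneg a)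
        nlinarith [sq_nonneg (k * a ^ 2 - c)]
      exact (abs_le_of_sq_le_sq' h6 (by positivity)).2
    rw [e]
    push_cast
    have h8 : a ^ 2 + c ≤ s.re ^ 2 - w.re ^ 2 := by rw [hc]; linarith
    have h9 : ((k : ℝ) + 1) * (a ^ 2 + c) ≤ (k + 1) * (s.re ^ 2 - w.re ^ 2) :=
      mul_le_mul_of_nonneg_left h8 (by positivity)
    nlinarith

theorem gn_real (hF : FE F) (n : ℕ) (u : ℝ) :
    (starRingEnd ℂ) (I ^ n * iteratedDeriv n F (I * u)) = I ^ n * iteratedDeriv n F (I * u) := by
  have h1 := symm_iter hF n (I * u)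
  have h2 : -((starRingEnd ℂ) (I * (u : ℂ))) = I * u := by
    rw [map_mul, conj_I, conj_ofReal]
    ring
  rw [h2] at h1
  rw [map_mul, map_pow, conj_I]
  conv_rhs => rw [h1]
  rw [← mul_assoc, ← mul_pow]
  congr 2
  ring

theorem gn_zero (hF : FE F) (n : ℕ) (u : ℝ) : gn F n u = 0 ↔ iteratedDeriv n F (I * u) = 0 := by
  have h1 := Complex.conj_eq_iff_re.1 (gn_real hF n u)
  unfold gn
  constructor
  · intro h
    rw [h] at h1
    have h2 : I ^ n * iteratedDeriv n F (I * u) = 0 := by rw [← h1]; simp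
    exact (mul_eq_zero.1 h2).resolve_left (pow_ne_zero _ I_ne_zero)
  · intro h
    rw [h, mul_zero, zero_re]

theorem gn_deriv (hF : FE F) (n : ℕ) (u : ℝ) : HasDerivAt (gn F n) (gn F (n + 1) u) u := by
  have h1 : HasDerivAt (iteratedDeriv n F) (iteratedDeriv (n + 1) F (I * u)) (I * (u : ℂ)) := iter_has hF n _
  have h2 : HasDerivAt (fun w : ℂ => I * w) I (u : ℂ) := by
    simpa using (hasDerivAt_id (u : ℂ)).const_mul I
  have h3 : HasDerivAt (fun w : ℂ => I ^ n * iteratedDeriv n F (I * w))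
      (I ^ n * (iteratedDeriv (n + 1) F (I * u) * I)) (u : ℂ) :=
    (h1.comp (u : ℂ) h2).const_mul _
  have h4 := h3.real_of_complex
  refine h4.congr_deriv ?_
  unfold gn
  congr 1
  rw [pow_succ]
  ring

/-- the sign of `Re (f_(n+1)/f_n)` near a point of the line without zeros off the line nearby -/
theorem sgn (hF : FE F) {n : ℕ} {u : ℝ} (h0 : iteratedDeriv n F (I * u) ≠ 0)
    (hb : ∀ s : ℂ, iteratedDeriv n F s = 0 → s.re ≠ 0 → |s.re| < |s.im - u|) :
    ∀ᶠ w' in 𝓝 (I * (u : ℂ)), 0 ≤ w'.re * (deriv (iteratedDeriv n F) w' / iteratedDeriv n F w').re := by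
  have hre : (I * (u : ℂ)).re = 0 := by simp
  have him : (I * (u : ℂ)).im = u := by simp
  obtain ⟨Q, hQ1, hQ2⟩ := approx hF n
  exact signM (iter_diff hF n) ((-1) ^ n) (by simp) (symm_iter hF n) hQ1 hQ2 (I * u) h0 (by
    intro z hz1 hz2 hz3
    rw [hre, him] at hz2
    rcases eq_or_ne z.re 0 with h | h
    · have h4 : u = z.im := by
        rw [h] at hz2
        nlinarith [sq_nonneg (u - z.im)]
      apply h0
      have : I * (u : ℂ) = z := by
        apply Complex.ext
        · rw [hre, h]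
        · rw [him, h4]
      rw [this]
      exact hz3
    · have h4 := hb z hz3 h
      have h5 : |z.re| ^ 2 < |z.im - u| ^ 2 := by gcongr
      rw [sq_abs, sq_abs] at h5
      nlinarith)

/-- at a critical point without zeros of `f_n` off the line nearby: `f_(n+2) ≠ 0` -/
theorem simple_crit (hF : FE F) {n : ℕ} {u : ℝ} (h0 : iteratedDeriv n F (I * u) ≠ 0)
    (h1 : iteratedDeriv (n + 1) F (I * u) = 0)
    (hb : ∀ s : ℂ, iteratedDeriv n F s = 0 → s.re ≠ 0 → |s.re| < |s.im - u|) :
    iteratedDeriv (n + 2) F (I * u) ≠ 0 := by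
  intro hw3
  have hM := sgn hF h0 hb
  set w : ℂ := I * (u : ℂ) with hw
  have hwre : w.re = 0 := by rw [hw]; simp
  set g : ℂ → ℂ := iteratedDeriv n F with hg
  have hgd : Differentiable ℂ g := iter_diff hF n
  have hdg : deriv g = iteratedDeriv (n + 1) F := by rw [hg, iteratedDeriv_succ]
  have hddg : deriv (deriv g) = iteratedDeriv (n + 2) F := by rw [hdg, ← iteratedDeriv_succ]
  have hw1' : deriv g w = 0 := by rw [hdg]; exact h1
  have hfan : ∀ a : ℂ, g a ≠ 0 → AnalyticAt ℂ (fun z => deriv g z / g z) a := by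
    intro a ha
    exact ((hgd.analyticAt a).deriv).div (hgd.analyticAt a) ha
  have hgev : ∀ᶠ z in 𝓝 w, g z ≠ 0 := hgd.continuous.continuousAt.eventually_ne h0
  obtain ⟨R, hR, hRb⟩ := Metric.eventually_nhds_iff_ball.1 (hM.and hgev)
  set ρ := R / 2 with hρ
  have hρp : 0 < ρ := by positivity
  have hsub : Metric.closedBall w ρ ⊆ Metric.ball w R :=
    Metric.closedBall_subset_ball (by rw [hρ]; linarith)
  have hder : deriv (fun z => deriv g z / g z) w = 0 := by
    have h1 : HasDerivAt (deriv g) (deriv (deriv g) w) w := by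
      have : Differentiable ℂ (deriv g) := by
        rw [hdg]; exact iter_diff hF (n + 1)
      exact (this w).hasDerivAt
    have h2 : HasDerivAt g (deriv g w) w := (hgd w).hasDerivAt
    have h3 := (h1.div h2 h0).deriv
    rw [hddg, hw3, hw1'] at h3
    have h4 : deriv (fun z => deriv g z / g z) w = deriv (deriv g / g) w := rfl
    rw [h4, h3]
    ring
  have hle := hopf (f := fun z => deriv g z / g z) hρp hwre
    (fun z hz => (hfan z (hRb z (hsub hz)).2).differentiableAt.differentiableWithinAt)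
    (by simp only [hw1', zero_div]) hder (fun z hz => (hRb z (hsub hz)).1)
  have hmem : w + ρ ∈ Metric.ball w R := by
    rw [Metric.mem_ball, dist_eq_norm, add_sub_cancel_left, Complex.norm_real, Real.norm_eq_abs,
      abs_of_pos hρp]
    rw [hρ]; linarith
  have hre1 : (w + (ρ : ℂ)).re = ρ := by rw [Complex.add_re, hwre, zero_add, Complex.ofReal_re]
  have hge : 0 ≤ ((fun z => deriv g z / g z) (w + ρ)).re := by
    have h1 := (hRb _ hmem).1
    rw [hre1] at h1
    exact nonneg_of_mul_nonneg_right h1 hρp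
  have hz : ((fun z => deriv g z / g z) (w + ρ)).re = 0 := le_antisymm hle hge
  have hnear : ∀ᶠ z in 𝓝 (w + (ρ : ℂ)), 0 ≤ (1 : ℝ) * ((fun z => deriv g z / g z) z).re := by
    have h1 : ∀ᶠ z in 𝓝 (w + (ρ : ℂ)), z ∈ Metric.ball w R := Metric.isOpen_ball.mem_nhds hmem
    have h2 : ∀ᶠ z : ℂ in 𝓝 (w + (ρ : ℂ)), 0 < z.re := by
      apply (Complex.continuous_re.tendsto _).eventually
      apply lt_mem_nhds
      rw [hre1]; exact hρp
    filter_upwards [h1, h2] with z h3 h4
    rw [one_mul]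
    exact nonneg_of_mul_nonneg_right (hRb z h3).1 h4
  exact not_const hF n (hRb _ hmem).2 (open_const (hfan _ (hRb _ hmem).2) hz one_ne_zero hnear)

/-- the sign of `f_(n+2) / f_n` -/
theorem sign_crit (hF : FE F) {n : ℕ} {u : ℝ} (h0 : iteratedDeriv n F (I * u) ≠ 0)
    (h1 : iteratedDeriv (n + 1) F (I * u) = 0)
    (hb : ∀ s : ℂ, iteratedDeriv n F s = 0 → s.re ≠ 0 → |s.re| < |s.im - u|) :
    0 ≤ (iteratedDeriv (n + 2) F (I * u) / iteratedDeriv n F (I * u)).re := by
  have hre : (I * (u : ℂ)).re = 0 := by simp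
  have him : (I * (u : ℂ)).im = u := by simp
  have hs := sgn hF h0 hb
  -- the derivative of `f_(n+1)/f_n` at the point
  set q : ℂ → ℂ := fun z => iteratedDeriv (n + 1) F z / iteratedDeriv n F z with hq
  have hd : ∀ (m : ℕ) (z : ℂ), HasDerivAt (iteratedDeriv m F) (iteratedDeriv (m + 1) F z) z := iter_has hF
  have hqd : HasDerivAt q (iteratedDeriv (n + 2) F (I * u) / iteratedDeriv n F (I * u)) (I * u) := by
    have h := (hd (n + 1) (I * u)).div (hd n (I * u)) h0
    refine h.congr_deriv ?_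
    rw [h1]
    field_simp
    ring
  have hl : HasDerivAt (fun h : ℝ => I * (u : ℂ) + (h : ℂ)) 1 0 := by
    have : HasDerivAt (fun h : ℝ => (h : ℂ)) 1 0 := Complex.ofRealCLM.hasDerivAt
    simpa using this.const_add (I * (u : ℂ))
  have hqr : HasDerivAt (fun h : ℝ => q (I * u + h))
      (iteratedDeriv (n + 2) F (I * u) / iteratedDeriv n F (I * u)) 0 := by
    have h3 : HasDerivAt q (iteratedDeriv (n + 2) F (I * u) / iteratedDeriv n F (I * u))
        (I * (u : ℂ) + ((0 : ℝ) : ℂ)) := by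
      rw [ofReal_zero, add_zero]
      exact hqd
    have := h3.comp (0 : ℝ) hl
    simpa [Function.comp_def] using this
  have hre2 : HasDerivAt (fun h : ℝ => (q (I * u + h)).re)
      (iteratedDeriv (n + 2) F (I * u) / iteratedDeriv n F (I * u)).re 0 := by
    have := Complex.reCLM.hasFDerivAt.comp_hasDerivAt (0 : ℝ) hqr
    simpa [Function.comp_def] using this
  have hq0 : (q (I * u + ((0 : ℝ) : ℂ))).re = 0 := by
    rw [ofReal_zero, add_zero, hq]
    simp only
    rw [h1, zero_div, zero_re]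
  -- non-negative for small positive `h`
  have hev : ∀ᶠ h : ℝ in 𝓝[>] (0 : ℝ), 0 ≤ (q (I * u + (h : ℂ))).re := by
    have hc : Tendsto (fun h : ℝ => I * (u : ℂ) + (h : ℂ)) (𝓝 0) (𝓝 (I * u)) := by
      have := hl.continuousAt.tendsto
      simpa using this
    have h3 : ∀ᶠ h : ℝ in 𝓝[>] (0 : ℝ), 0 ≤ (I * (u : ℂ) + (h : ℂ)).re *
        (deriv (iteratedDeriv n F) (I * (u : ℂ) + (h : ℂ)) / iteratedDeriv n F (I * (u : ℂ) + (h : ℂ))).re :=
      (hc.mono_left nhdsWithin_le_nhds).eventually hs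
    filter_upwards [h3, self_mem_nhdsWithin] with h h4 h5
    have h6 : (I * (u : ℂ) + (h : ℂ)).re = h := by simp
    rw [h6, ← iteratedDeriv_succ] at h4
    have h5' : (0 : ℝ) < h := h5
    exact nonneg_of_mul_nonneg_right h4 h5'
  have hslope : Tendsto (slope (fun h : ℝ => (q (I * u + h)).re) 0) (𝓝[>] (0 : ℝ))
      (𝓝 (iteratedDeriv (n + 2) F (I * u) / iteratedDeriv n F (I * u)).re) :=
    (hasDerivAt_iff_tendsto_slope.1 hre2).mono_left
      (nhdsWithin_mono (0 : ℝ) (fun x (hx : (0 : ℝ) < x) => ne_of_gt hx))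
  refine ge_of_tendsto hslope ?_
  filter_upwards [hev, self_mem_nhdsWithin] with h h4 h5
  have h5' : (0 : ℝ) < h := h5
  rw [slope_def_field, hq0, sub_zero, sub_zero]
  exact div_nonneg h4 h5'.le

theorem crit_weight (hF : FE F) {n : ℕ} {u : ℝ} (h0 : gn F n u ≠ 0) (h1 : gn F (n + 1) u = 0)
    (hb : ∀ s : ℂ, iteratedDeriv n F s = 0 → s.re ≠ 0 → |s.re| < |s.im - u|) : vw F n u = 0 := by
  classical
  have f0 : iteratedDeriv n F (I * u) ≠ 0 := fun h => h0 ((gn_zero hF n u).2 h)
  have f1 : iteratedDeriv (n + 1) F (I * u) = 0 := (gn_zero hF (n + 1) u).1 h1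
  have f2 := simple_crit hF f0 f1 hb
  have f3 := sign_crit hF f0 f1 hb
  -- the product `g_n g_(n+2)` is negative
  have g2 : gn F (n + 2) u ≠ 0 := fun h => f2 ((gn_zero hF (n + 2) u).1 h)
  have hprod : gn F (n + 2) u / gn F n u = -(iteratedDeriv (n + 2) F (I * u) / iteratedDeriv n F (I * u)).re := by
    have e0 : ((gn F n u : ℝ) : ℂ) = I ^ n * iteratedDeriv n F (I * u) :=
      Complex.conj_eq_iff_re.1 (gn_real hF n u)
    have e2 : ((gn F (n + 2) u : ℝ) : ℂ) = I ^ (n + 2) * iteratedDeriv (n + 2) F (I * u) :=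
      Complex.conj_eq_iff_re.1 (gn_real hF (n + 2) u)
    have e3 : ((gn F (n + 2) u / gn F n u : ℝ) : ℂ) =
        -(iteratedDeriv (n + 2) F (I * u) / iteratedDeriv n F (I * u)) := by
      rw [ofReal_div, e0, e2, pow_add, I_sq]
      have hI : (I : ℂ) ^ n ≠ 0 := pow_ne_zero _ I_ne_zero
      field_simp
    have := congrArg Complex.re e3
    rw [ofReal_re, neg_re] at this
    exact this
  have hneg : gn F (n + 2) u / gn F n u < 0 := by
    rcases lt_or_eq_of_le f3 with h | h
    · rw [hprod]; linarith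
    · exfalso
      rw [← h, neg_zero, div_eq_zero_iff] at hprod
      rcases hprod with h | h
      · exact g2 h
      · exact h0 h
  -- multiplicity one
  have hmu : mu F (n + 1) (I * u) ≤ 1 := by
    unfold mu
    have ha : AnalyticAt ℂ (iteratedDeriv (n + 1) F) (I * u) := (iter_diff hF (n + 1)).analyticAt _
    by_contra hcon
    push Not at hcon
    have h3 : ((2 : ℕ) : ℕ∞) ≤ analyticOrderAt (iteratedDeriv (n + 1) F) (I * u) := by
      unfold analyticOrderNatAt at hcon
      rcases eq_or_ne (analyticOrderAt (iteratedDeriv (n + 1) F) (I * u)) ⊤ with h | h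
      · rw [h]; exact le_top
      · have := (ENat.natCast_toNat h).symm
        rw [this]
        exact_mod_cast hcon
    have h4 := (natCast_le_analyticOrderAt_iff_iteratedDeriv_eq_zero ha).1 h3 1 (by norm_num)
    rw [iteratedDeriv_one, ← iteratedDeriv_succ] at h4
    exact f2 h4
  -- not a local minimum
  have hmin : ¬ IsLocalMin (fun x : ℝ => |gn F n x|) u := by
    intro hm
    -- `h = g_n / g_n(u)` has value one, derivative zero and negative second derivative
    set φ : ℝ → ℝ := fun x => gn F n x / gn F n u with hφ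
    have hφd : ∀ x, HasDerivAt φ (gn F (n + 1) x / gn F n u) x := fun x => (gn_deriv hF n x).div_const _
    have hcont : Continuous φ := continuous_iff_continuousAt.2 fun x => (hφd x).continuousAt
    have hmin' : IsLocalMin φ u := by
      have hφu : φ u = 1 := by rw [hφ]; exact div_self h0
      have hpos : ∀ᶠ x in 𝓝 u, 0 < φ x := by
        refine hcont.continuousAt.eventually (lt_mem_nhds ?_)
        rw [hφu]; exact one_pos
      filter_upwards [hpos, hm] with x hx1 hx2
      have h5 : |gn F n u| ≤ |gn F n x| := hx2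
      have h6 : φ x = |gn F n x| / |gn F n u| := by
        rw [← abs_div]
        exact (abs_of_pos hx1).symm
      rw [hφu, h6, le_div_iff₀ (abs_pos.2 h0), one_mul]
      exact h5
    -- a strict local maximum
    have hev := hasDerivAt_iff_tendsto_slope.1 ((gn_deriv hF (n + 1) u).div_const (gn F n u))
    have hlt : ∀ᶠ x in 𝓝[≠] u, slope (fun x => gn F (n + 1) x / gn F n u) u x < 0 :=
      hev.eventually (gt_mem_nhds hneg)
    rw [eventually_nhdsWithin_iff] at hlt
    obtain ⟨ε, hε, hball⟩ := Metric.eventually_nhds_iff.1 (hlt.and hmin')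
    -- mean value theorem on `[u, u + ε/2]`
    have hx1 : u < u + ε / 2 := by linarith
    obtain ⟨c, hc, hc2⟩ := exists_hasDerivAt_eq_slope φ (fun x => gn F (n + 1) x / gn F n u) hx1
      hcont.continuousOn (fun x _ => hφd x)
    have hcd : dist c u < ε := by
      rw [Real.dist_eq, abs_of_pos (by linarith [hc.1])]
      linarith [hc.2]
    have hxd : dist (u + ε / 2) u < ε := by
      rw [Real.dist_eq, add_sub_cancel_left, abs_of_pos (by linarith)]
      linarith
    have k1 := (hball hcd).1 (ne_of_gt hc.1)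
    rw [slope_def_field, h1, zero_div, sub_zero] at k1
    have k2 : gn F (n + 1) c / gn F n u < 0 := by
      by_contra hcon
      push Not at hcon
      have : 0 ≤ gn F (n + 1) c / gn F n u / (c - u) := div_nonneg hcon (by linarith [hc.1])
      linarith
    rw [hc2] at k2
    have k3 : φ u ≤ φ (u + ε / 2) := (hball hxd).2
    have : 0 ≤ (φ (u + ε / 2) - φ u) / (u + ε / 2 - u) := div_nonneg (by linarith) (by linarith)
    linarith
  unfold vw
  rw [if_neg hmin, add_zero]
  omega

/-- **PART A7** -/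
theorem t_A7 (hF : FE F) : S_A7 F := by
  intro n k u h0 h1 hw
  have hex : ∃ s : ℂ, iteratedDeriv (n + k) F s = 0 ∧ s.re ≠ 0 ∧ |s.im - u| ≤ |s.re| := by
    by_contra hcon
    push Not at hcon
    exact hw (crit_weight hF h0 h1 hcon)
  obtain ⟨z, hz1, hz2, hz3⟩ := hex
  obtain ⟨s, h3, h4, h5, h6⟩ := drift2 hF n k z hz1 hz2
  refine ⟨s, h3, h4, ?_⟩
  have hz4 : (z.im - u) ^ 2 ≤ z.re ^ 2 := by
    rw [← sq_abs (z.im - u), ← sq_abs z.re]
    gcongr
  set a := z.im - u with ha
  set b := z.im - s.im with hb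
  set c := s.re ^ 2 - z.re ^ 2 with hc
  have hc0 : 0 ≤ c := by rw [hc]; linarith
  have hk : (0 : ℝ) ≤ k := Nat.cast_nonneg _
  have e : s.im - u = a - b := by rw [ha, hb]; ring
  have h7 : -(2 * (a * b)) ≤ k * a ^ 2 + c := by
    have h8 : (-(2 * (a * b))) ^ 2 ≤ (k * a ^ 2 + c) ^ 2 := by
      have h9 : a ^ 2 * b ^ 2 ≤ a ^ 2 * (k * c) := mul_le_mul_of_nonneg_left h6 (sq_nonneg a)
      nlinarith [sq_nonneg (k * a ^ 2 - c)]
    exact (abs_le_of_sq_le_sq' h8 (by positivity)).2
  rw [e]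
  have h8 : a ^ 2 + c ≤ s.re ^ 2 := by rw [hc]; linarith
  have h9 : ((k : ℝ) + 1) * (a ^ 2 + c) ≤ (k + 1) * s.re ^ 2 :=
    mul_le_mul_of_nonneg_left h8 (by positivity)
  nlinarith

end Pool.Agent.Zk6.G
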