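import Pool.Agent.Zk4.G.Str
import Pool.Agent.Zk4.G.A23

set_option autoImplicit false

/-!
# Limits of polynomials with roots in a strip: the logarithmic derivative and growth
-/

namespace Pool.Agent.Zk6.G

open Complex Filter Topology Polynomial

noncomputable section

/-- `g` is the locally uniform limit of polynomials with roots in the strip `|Re z| ≤ w` -/
def Lim (w : ℝ) (g : ℂ → ℂ) : Prop := ∃ Q : ℕ → ℂ[X],
  (∀ᶠ N in atTop, Q N ≠ 0 ∧ ∀ z : ℂ, (Q N).IsRoot z → |z.re| ≤ w) ∧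
  TendstoLocallyUniformly (fun (N : ℕ) (z : ℂ) => (Q N).eval z) g atTop

/-! ### polynomials -/

/-- the sum of `1 / (p - ρ)` -/
def S1 (s : Multiset ℂ) (p : ℂ) : ℂ := (s.map fun ρ => 1 / (p - ρ)).sum

/-- the sum of `1 / (p - ρ)^2` -/
def S2 (s : Multiset ℂ) (p : ℂ) : ℂ := (s.map fun ρ => 1 / (p - ρ) ^ 2).sum

/-- the sum of `1 / |p - ρ|^2` -/
def SN (s : Multiset ℂ) (p : ℂ) : ℝ := (s.map fun ρ => 1 / ‖p - ρ‖ ^ 2).sum

lemma S1_cons (a : ℂ) (s : Multiset ℂ) (p : ℂ) : S1 (a ::ₘ s) p = 1 / (p - a) + S1 s p := by simp [S1]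
lemma S2_cons (a : ℂ) (s : Multiset ℂ) (p : ℂ) : S2 (a ::ₘ s) p = 1 / (p - a) ^ 2 + S2 s p := by simp [S2]
lemma SN_cons (a : ℂ) (s : Multiset ℂ) (p : ℂ) : SN (a ::ₘ s) p = 1 / ‖p - a‖ ^ 2 + SN s p := by simp [SN]
lemma S1_zero (p : ℂ) : S1 0 p = 0 := by simp [S1]
lemma S2_zero (p : ℂ) : S2 0 p = 0 := by simp [S2]
lemma SN_zero (p : ℂ) : SN 0 p = 0 := by simp [SN]

lemma SN_nonneg (s : Multiset ℂ) (p : ℂ) : 0 ≤ SN s p := by
  induction s using Multiset.induction_on with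
  | empty => rw [SN_zero]
  | cons a s ih => rw [SN_cons]; positivity

lemma S2_le (s : Multiset ℂ) (p : ℂ) : ‖S2 s p‖ ≤ SN s p := by
  induction s using Multiset.induction_on with
  | empty => rw [S2_zero, SN_zero, norm_zero]
  | cons a s ih =>
    rw [S2_cons, SN_cons]
    refine (norm_add_le _ _).trans (add_le_add ?_ ih)
    rw [norm_div, norm_one, norm_pow]

/-- `Re Σ 1/(p-ρ) ≥ (Re p - w) Σ 1/|p-ρ|²` -/
lemma SN_le {w : ℝ} (s : Multiset ℂ) (p : ℂ) (h : ∀ ρ ∈ s, ρ.re ≤ w) (hp : w < p.re) :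
    (p.re - w) * SN s p ≤ (S1 s p).re := by
  induction s using Multiset.induction_on with
  | empty => rw [S1_zero, SN_zero, mul_zero, Complex.zero_re]
  | cons a s ih =>
    rw [S1_cons, SN_cons, mul_add, Complex.add_re]
    refine add_le_add ?_ (ih fun ρ hρ => h ρ (Multiset.mem_cons_of_mem hρ))
    have ha := h a (Multiset.mem_cons_self a s)
    have e1 : (1 / (p - a)).re = (p.re - a.re) / ‖p - a‖ ^ 2 := by
      rw [one_div, Complex.inv_re, Complex.normSq_eq_norm_sq, Complex.sub_re]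
    rw [e1, mul_one_div]
    apply div_le_div_of_nonneg_right _ (by positivity)
    linarith

/-- the derivative of the sum -/
lemma S1_deriv (s : Multiset ℂ) (p : ℂ) (h : ∀ ρ ∈ s, p ≠ ρ) : HasDerivAt (S1 s) (-S2 s p) p := by
  induction s using Multiset.induction_on with
  | empty =>
    have : S1 0 = fun _ : ℂ => (0 : ℂ) := funext fun z => S1_zero z
    rw [this, S2_zero, neg_zero]
    exact hasDerivAt_const p 0
  | cons a s ih =>
    have e : S1 (a ::ₘ s) = fun z => 1 / (z - a) + S1 s z := funext fun z => S1_cons a s z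
    rw [e, S2_cons, neg_add]
    have hne : p - a ≠ 0 := sub_ne_zero.2 (h a (Multiset.mem_cons_self a s))
    have h1 : HasDerivAt (fun z : ℂ => 1 / (z - a)) (-(1 / (p - a) ^ 2)) p := by
      have h2 := ((hasDerivAt_id p).sub_const a).inv hne
      simp only [id] at h2
      have e2 : (fun z : ℂ => 1 / (z - a)) = fun z => (z - a)⁻¹ := by
        funext z; rw [one_div]
      rw [e2]
      exact h2.congr_deriv (by rw [neg_div])
    exact h1.add (ih fun ρ hρ => h ρ (Multiset.mem_cons_of_mem hρ))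

/-- growth of the product -/
lemma prod_growth (s : Multiset ℂ) (p z : ℂ) (h : ∀ ρ ∈ s, p ≠ ρ) :
    ‖(s.map fun ρ => z - ρ).prod‖ ≤ ‖(s.map fun ρ => p - ρ).prod‖ *
      Real.exp (((z - p) * S1 s p).re + ‖z - p‖ ^ 2 / 2 * SN s p) := by
  induction s using Multiset.induction_on with
  | empty => simp [S1_zero, SN_zero]
  | cons a s ih =>
    have hne : p - a ≠ 0 := sub_ne_zero.2 (h a (Multiset.mem_cons_self a s))
    have ih := ih fun ρ hρ => h ρ (Multiset.mem_cons_of_mem hρ)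
    rw [Multiset.map_cons, Multiset.prod_cons, Multiset.map_cons, Multiset.prod_cons, S1_cons, SN_cons,
      norm_mul, norm_mul, mul_add, Complex.add_re, mul_add]
    have h1 : ‖z - a‖ ≤ ‖p - a‖ * Real.exp (((z - p) * (1 / (p - a))).re + ‖z - p‖ ^ 2 / 2 * (1 / ‖p - a‖ ^ 2)) := by
      set u : ℂ := (z - p) * (1 / (p - a)) with hu
      have e1 : z - a = (p - a) * (1 + u) := by
        rw [hu]; field_simp; ring
      have e2 : ‖z - p‖ ^ 2 / 2 * (1 / ‖p - a‖ ^ 2) = ‖u‖ ^ 2 / 2 := by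
        rw [hu, norm_mul, norm_div, norm_one, mul_pow]
        ring
      rw [e1, norm_mul, e2]
      apply mul_le_mul_of_nonneg_left _ (norm_nonneg _)
      have h3 : ‖1 + u‖ ^ 2 ≤ Real.exp (u.re + ‖u‖ ^ 2 / 2) ^ 2 := by
        have e3 : ‖1 + u‖ ^ 2 = 1 + (2 * u.re + ‖u‖ ^ 2) := by
          rw [← Complex.normSq_eq_norm_sq, ← Complex.normSq_eq_norm_sq, Complex.normSq_apply,
            Complex.normSq_apply]
          simp only [Complex.add_re, Complex.add_im, Complex.one_re, Complex.one_im]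
          ring
        rw [e3, ← Real.exp_nat_mul]
        have h4 := Real.add_one_le_exp (2 * u.re + ‖u‖ ^ 2)
        have e4 : ((2 : ℕ) : ℝ) * (u.re + ‖u‖ ^ 2 / 2) = 2 * u.re + ‖u‖ ^ 2 := by push_cast; ring
        rw [e4]
        linarith
      exact le_of_sq_le_sq h3 (Real.exp_pos _).le
    calc ‖z - a‖ * ‖(s.map fun ρ => z - ρ).prod‖ ≤
        (‖p - a‖ * Real.exp (((z - p) * (1 / (p - a))).re + ‖z - p‖ ^ 2 / 2 * (1 / ‖p - a‖ ^ 2))) *
        (‖(s.map fun ρ => p - ρ).prod‖ * Real.exp (((z - p) * S1 s p).re + ‖z - p‖ ^ 2 / 2 * SN s p)) :=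
          mul_le_mul h1 ih (norm_nonneg _) (by positivity)
      _ = ‖p - a‖ * ‖(s.map fun ρ => p - ρ).prod‖ *
          (Real.exp (((z - p) * (1 / (p - a))).re + ‖z - p‖ ^ 2 / 2 * (1 / ‖p - a‖ ^ 2)) *
          Real.exp (((z - p) * S1 s p).re + ‖z - p‖ ^ 2 / 2 * SN s p)) := by ring
      _ = _ := by rw [← Real.exp_add]; congr 2; ring

/-! ### the logarithmic derivative of a polynomial -/

lemma ev_prod (Q : ℂ[X]) (z : ℂ) : Q.eval z = Q.leadingCoeff * (Q.roots.map fun ρ => z - ρ).prod := by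
  have h := (IsAlgClosed.splits Q).eq_prod_roots
  have h2 := congrArg (fun P : ℂ[X] => P.eval z) h
  simp only [eval_mul, eval_C, eval_multiset_prod, Multiset.map_map, Function.comp_def, eval_sub, eval_X] at h2
  exact h2

lemma quot (Q : ℂ[X]) (z : ℂ) (h0 : Q.eval z ≠ 0) : (derivative Q).eval z / Q.eval z = S1 Q.roots z := by
  rw [(IsAlgClosed.splits Q).eval_derivative_div_eval_of_ne_zero h0]
  rfl

lemma root_ne (Q : ℂ[X]) (z : ℂ) (h0 : Q.eval z ≠ 0) : ∀ ρ ∈ Q.roots, z ≠ ρ := by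
  rintro ρ hρ rfl
  exact h0 (isRoot_of_mem_roots hρ)

lemma quot_deriv (Q : ℂ[X]) (z : ℂ) (h0 : Q.eval z ≠ 0) :
    ((derivative (derivative Q)).eval z * Q.eval z - (derivative Q).eval z ^ 2) / Q.eval z ^ 2 = -S2 Q.roots z := by
  have h1 : HasDerivAt (fun z => (derivative Q).eval z / Q.eval z)
      (((derivative (derivative Q)).eval z * Q.eval z - (derivative Q).eval z * (derivative Q).eval z) /
        Q.eval z ^ 2) z := (derivative Q).hasDerivAt z |>.div (Q.hasDerivAt z) h0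
  have hev : ∀ᶠ y in 𝓝 z, Q.eval y ≠ 0 := Q.continuous.continuousAt.eventually_ne h0
  have h2 : (fun z => (derivative Q).eval z / Q.eval z) =ᶠ[𝓝 z] S1 Q.roots := by
    filter_upwards [hev] with y hy
    exact quot Q y hy
  have h3 := (S1_deriv Q.roots z (root_ne Q z h0)).congr_of_eventuallyEq h2
  rw [pow_two ((derivative Q).eval z)]
  exact h1.unique h3

/-- growth of a polynomial -/
lemma poly_growth {w : ℝ} (Q : ℂ[X]) (p z : ℂ) (hp : w < p.re) (h0 : Q.eval p ≠ 0)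
    (h : ∀ z : ℂ, Q.IsRoot z → |z.re| ≤ w) :
    ‖Q.eval z‖ ≤ ‖Q.eval p‖ * Real.exp (‖z - p‖ * ‖(derivative Q).eval p / Q.eval p‖ +
      ‖z - p‖ ^ 2 / 2 * (((derivative Q).eval p / Q.eval p).re / (p.re - w))) := by
  have h1 := prod_growth Q.roots p z (root_ne Q p h0)
  have hroot : ∀ ρ ∈ Q.roots, ρ.re ≤ w := fun ρ hρ => (le_abs_self _).trans (h ρ (isRoot_of_mem_roots hρ))
  have h2 := SN_le Q.roots p hroot hp
  have hpw : 0 < p.re - w := by linarith
  have h3 : SN Q.roots p ≤ (S1 Q.roots p).re / (p.re - w) := by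
    rw [le_div_iff₀ hpw]
    linarith
  rw [quot Q p h0, ev_prod Q z, ev_prod Q p, norm_mul, norm_mul, mul_assoc]
  apply mul_le_mul_of_nonneg_left _ (norm_nonneg _)
  refine h1.trans (mul_le_mul_of_nonneg_left (Real.exp_le_exp.2 (add_le_add ?_ ?_)) (norm_nonneg _))
  · refine (Complex.re_le_norm _).trans ?_
    rw [norm_mul]
  · exact mul_le_mul_of_nonneg_left h3 (by positivity)

/-! ### limits -/

lemma tlu_deriv {Q : ℕ → ℂ[X]} {g : ℂ → ℂ}
    (h : TendstoLocallyUniformly (fun (N : ℕ) (z : ℂ) => (Q N).eval z) g atTop) :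
    TendstoLocallyUniformly (fun (N : ℕ) (z : ℂ) => (derivative (Q N)).eval z) (deriv g) atTop := by
  rw [← tendstoLocallyUniformlyOn_univ] at h ⊢
  have h1 := h.deriv (Eventually.of_forall fun N => (Q N).differentiable.differentiableOn) isOpen_univ
  have h2 : (deriv ∘ fun (N : ℕ) (z : ℂ) => (Q N).eval z) =
      fun (N : ℕ) (z : ℂ) => (derivative (Q N)).eval z := by
    funext N z
    rw [Function.comp_apply, Polynomial.deriv]
  rwa [h2] at h1

lemma lim_pt {w : ℝ} {g : ℂ → ℂ} {Q : ℕ → ℂ[X]}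
    (h : TendstoLocallyUniformly (fun (N : ℕ) (z : ℂ) => (Q N).eval z) g atTop) (z : ℂ) :
    Tendsto (fun N => (Q N).eval z) atTop (𝓝 (g z)) :=
  (tendstoLocallyUniformlyOn_univ.2 h).tendsto_at (Set.mem_univ z)

/-- (1) the real part of the logarithmic derivative -/
theorem lim_re_nonneg {w : ℝ} {g : ℂ → ℂ} (h : Lim w g) {p : ℂ} (hp : w < p.re) (h0 : g p ≠ 0) :
    0 ≤ (deriv g p / g p).re := by
  obtain ⟨Q, hQ1, hQ2⟩ := h
  have t0 := lim_pt (w := w) hQ2 p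
  have t1 := lim_pt (w := w) (tlu_deriv hQ2) p
  have ht : Tendsto (fun N => ((derivative (Q N)).eval p / (Q N).eval p).re) atTop (𝓝 (deriv g p / g p).re) :=
    (Complex.continuous_re.tendsto _).comp (t1.div t0 h0)
  refine ge_of_tendsto ht ?_
  filter_upwards [hQ1, t0.eventually_ne h0] with N hN1 hN2
  rw [quot _ _ hN2]
  have hroot : ∀ ρ ∈ (Q N).roots, ρ.re ≤ w := fun ρ hρ =>
    (le_abs_self _).trans (hN1.2 ρ (isRoot_of_mem_roots hρ))
  have h2 := SN_le (Q N).roots p hroot hp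
  have h3 := SN_nonneg (Q N).roots p
  have h4 : 0 ≤ (p.re - w) * SN (Q N).roots p := mul_nonneg (by linarith) h3
  linarith

/-- (2) Schwarz-Pick -/
theorem lim_pick {w : ℝ} {g : ℂ → ℂ} (h : Lim w g) {p : ℂ} (hp : w < p.re) (h0 : g p ≠ 0) :
    ‖(deriv (deriv g) p * g p - deriv g p ^ 2) / g p ^ 2‖ ≤ (deriv g p / g p).re / (p.re - w) := by
  obtain ⟨Q, hQ1, hQ2⟩ := h
  have hpw : 0 < p.re - w := by linarith
  have t0 := lim_pt (w := w) hQ2 p
  have t1 := lim_pt (w := w) (tlu_deriv hQ2) p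
  have t2 := lim_pt (w := w) (tlu_deriv (tlu_deriv hQ2)) p
  have ht : Tendsto (fun N => ((derivative (Q N)).eval p / (Q N).eval p).re / (p.re - w)) atTop
      (𝓝 ((deriv g p / g p).re / (p.re - w))) :=
    ((Complex.continuous_re.tendsto _).comp (t1.div t0 h0)).div_const _
  have ht2 : Tendsto (fun N => ‖((derivative (derivative (Q N))).eval p * (Q N).eval p -
      (derivative (Q N)).eval p ^ 2) / (Q N).eval p ^ 2‖) atTop
      (𝓝 ‖(deriv (deriv g) p * g p - deriv g p ^ 2) / g p ^ 2‖) :=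
    (((t2.mul t0).sub (t1.pow 2)).div (t0.pow 2) (pow_ne_zero 2 h0)).norm
  refine le_of_tendsto_of_tendsto ht2 ht ?_
  filter_upwards [hQ1, t0.eventually_ne h0] with N hN1 hN2
  rw [quot _ _ hN2, quot_deriv _ _ hN2, norm_neg, le_div_iff₀ hpw]
  have hroot : ∀ ρ ∈ (Q N).roots, ρ.re ≤ w := fun ρ hρ =>
    (le_abs_self _).trans (hN1.2 ρ (isRoot_of_mem_roots hρ))
  have h2 := SN_le (Q N).roots p hroot hp
  have h3 := S2_le (Q N).roots p
  nlinarith

/-- (3) growth -/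
theorem lim_growth {w : ℝ} {g : ℂ → ℂ} (h : Lim w g) {p : ℂ} (hp : w < p.re) (h0 : g p ≠ 0) (z : ℂ) :
    ‖g z‖ ≤ ‖g p‖ * Real.exp (‖z - p‖ * ‖deriv g p / g p‖ +
      ‖z - p‖ ^ 2 / 2 * ((deriv g p / g p).re / (p.re - w))) := by
  obtain ⟨Q, hQ1, hQ2⟩ := h
  have t0 := lim_pt (w := w) hQ2 p
  have t1 := lim_pt (w := w) (tlu_deriv hQ2) p
  have tz := lim_pt (w := w) hQ2 z
  have tq := t1.div t0 h0
  have ht : Tendsto (fun N => ‖(Q N).eval p‖ * Real.exp (‖z - p‖ * ‖(derivative (Q N)).eval p / (Q N).eval p‖ +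
      ‖z - p‖ ^ 2 / 2 * (((derivative (Q N)).eval p / (Q N).eval p).re / (p.re - w)))) atTop
      (𝓝 (‖g p‖ * Real.exp (‖z - p‖ * ‖deriv g p / g p‖ +
      ‖z - p‖ ^ 2 / 2 * ((deriv g p / g p).re / (p.re - w))))) := by
    refine t0.norm.mul ((Real.continuous_exp.tendsto _).comp ((tq.norm.const_mul _).add ?_))
    exact (((Complex.continuous_re.tendsto _).comp tq).div_const _).const_mul _
  refine le_of_tendsto_of_tendsto tz.norm ht ?_
  filter_upwards [hQ1, t0.eventually_ne h0] with N hN1 hN2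
  exact poly_growth (Q N) p z hp hN2 hN1.2

/-! ### the class `FE` -/

open Pool.Agent.Zk4.G (FE qq S_A1 Gr approxG ne_right iterD strip re_pos_of)

variable (F : ℂ → ℂ) [hF : FE F]

theorem lim_iter (n : ℕ) : Lim (1 / 2) (iteratedDeriv n F) := approxG F n

theorem qq_pos (n : ℕ) (z : ℂ) (hz : 1 / 2 < z.re) : 0 < (qq F n z).re := by
  refine re_pos_of F n (fun p hp => ?_) z hz
  have h := lim_re_nonneg (lim_iter F n) hp (ne_right F n p hp)
  rw [← iteratedDeriv_succ] at h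
  exact h

/-- Schwarz-Pick: `q_(n+1) - q_n` is small -/
theorem qq_step (n : ℕ) (p : ℂ) (hp : 1 / 2 < p.re) : ‖qq F (n + 1) p - qq F n p‖ ≤ 1 / (p.re - 1 / 2) := by
  have hpw : 0 < p.re - 1 / 2 := by linarith
  have h0 := ne_right F n p hp
  have h1 := ne_right F (n + 1) p hp
  have e1 : deriv (iteratedDeriv n F) = iteratedDeriv (n + 1) F := by rw [iteratedDeriv_succ]
  have e2 : deriv (deriv (iteratedDeriv n F)) = iteratedDeriv (n + 2) F := by rw [e1, ← iteratedDeriv_succ]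
  have h2 := lim_pick (lim_iter F n) hp h0
  rw [e2, e1] at h2
  have hq0 : qq F n p ≠ 0 := div_ne_zero h1 h0
  have e3 : qq F (n + 1) p - qq F n p = (iteratedDeriv (n + 2) F p * iteratedDeriv n F p -
      iteratedDeriv (n + 1) F p ^ 2) / iteratedDeriv n F p ^ 2 / qq F n p := by
    unfold qq
    field_simp
  have h3 : (iteratedDeriv (n + 1) F p / iteratedDeriv n F p).re ≤ ‖qq F n p‖ := Complex.re_le_norm _
  rw [e3, norm_div, div_le_div_iff₀ (norm_pos_iff.2 hq0) hpw]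
  have h5 := mul_le_mul_of_nonneg_right h2 hpw.le
  rw [div_mul_cancel₀ _ hpw.ne'] at h5
  linarith

/-- **PART A1** -/
theorem t_A1 : S_A1 F := by
  refine ⟨fun n z hz => ⟨ne_right F n z hz, qq_pos F n z hz⟩, fun n y => ?_⟩
  induction n with
  | zero => simp
  | succ n ih =>
    have h1 := qq_step F n (⟨1, y⟩ : ℂ) (by norm_num)
    have h2 : ‖qq F (n + 1) (⟨1, y⟩ : ℂ)‖ ≤ ‖qq F n (⟨1, y⟩ : ℂ)‖ +
        ‖qq F (n + 1) (⟨1, y⟩ : ℂ) - qq F n (⟨1, y⟩ : ℂ)‖ := by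
      have h3 := norm_add_le (qq F n (⟨1, y⟩ : ℂ)) (qq F (n + 1) (⟨1, y⟩ : ℂ) - qq F n (⟨1, y⟩ : ℂ))
      rwa [add_sub_cancel] at h3
    norm_num at h1
    push_cast
    linarith

/-- growth of the derivatives -/
theorem t_Gr (n : ℕ) (T : ℝ) : Gr (iteratedDeriv n F) (30 * ‖qq F n (⟨1, T⟩ : ℂ)‖) T := by
  refine ⟨iterD F n, by positivity, strip F n, fun z hz => ?_⟩
  have hp : (1 / 2 : ℝ) < (⟨1, T⟩ : ℂ).re := by norm_num
  have h1 := lim_growth (lim_iter F n) hp (ne_right F n _ hp) z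
  have e1 : deriv (iteratedDeriv n F) = iteratedDeriv (n + 1) F := by rw [iteratedDeriv_succ]
  rw [e1] at h1
  rw [mul_comm]
  refine h1.trans (mul_le_mul_of_nonneg_left (Real.exp_le_exp.2 ?_) (norm_nonneg _))
  have e2 : iteratedDeriv (n + 1) F (⟨1, T⟩ : ℂ) / iteratedDeriv n F (⟨1, T⟩ : ℂ) = qq F n (⟨1, T⟩ : ℂ) := rfl
  rw [e2]
  set q := qq F n (⟨1, T⟩ : ℂ) with hq
  have h2 : q.re ≤ ‖q‖ := Complex.re_le_norm q
  have h3 : (⟨1, T⟩ : ℂ).re - 1 / 2 = 1 / 2 := by norm_num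
  rw [h3]
  have h4 : 0 ≤ ‖q‖ := norm_nonneg q
  have h5 : ‖z - (⟨1, T⟩ : ℂ)‖ * ‖q‖ ≤ 5 * ‖q‖ := mul_le_mul_of_nonneg_right hz h4
  have h6 : ‖z - (⟨1, T⟩ : ℂ)‖ ^ 2 ≤ 5 ^ 2 := pow_le_pow_left₀ (norm_nonneg _) hz 2
  have h7 : ‖z - (⟨1, T⟩ : ℂ)‖ ^ 2 / 2 * (q.re / (1 / 2)) ≤ 25 * ‖q‖ := by
    have e3 : ‖z - (⟨1, T⟩ : ℂ)‖ ^ 2 / 2 * (q.re / (1 / 2)) = ‖z - (⟨1, T⟩ : ℂ)‖ ^ 2 * q.re := by ring
    rw [e3]
    calc ‖z - (⟨1, T⟩ : ℂ)‖ ^ 2 * q.re ≤ ‖z - (⟨1, T⟩ : ℂ)‖ ^ 2 * ‖q‖ :=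
          mul_le_mul_of_nonneg_left h2 (by positivity)
      _ ≤ 5 ^ 2 * ‖q‖ := mul_le_mul_of_nonneg_right h6 h4
      _ = 25 * ‖q‖ := by norm_num
  linarith

end

end Pool.Agent.Zk6.G
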