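import Pool.Agent.Zk6.G.Fin

set_option autoImplicit false

/-!
# The exact formula between two free heights, for all derivatives; the Riemann hypothesis in terms of the critical points
-/

namespace Pool.Agent.Zk6.G

open Complex Filter Topology
open Pool.Agent.Zk4.G

/-- the height `T` is free for `f_n` -/
def Fre (F : ℂ → ℂ) (n : ℕ) (T : ℝ) : Prop := ∀ s : ℂ, iteratedDeriv n F s = 0 → s.re ≠ 0 → |s.re| < |s.im - T|

/-- the exact formula, one step -/
def S_Ex (F : ℂ → ℂ) : Prop := ∀ (n : ℕ) (a b : ℝ), a < b → Fre F n a → Fre F n b →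
  MT F n a b = MT F (n + 1) a b + 2 * VT F n a b

/-- the height `T` is free for `f_n` and its derivatives -/
def Fr (C : ℝ) (F : ℂ → ℂ) (n : ℕ) (T : ℝ) : Prop :=
  ∀ s : ℂ, iteratedDeriv n F s = 0 → s.re ≠ 0 → C * s.re ^ 2 < (s.im - T) ^ 2

theorem near_of {F : ℂ → ℂ} (hF : FE F) (n k : ℕ) {u : ℝ} {z : ℂ} (hz1 : iteratedDeriv (n + k) F z = 0)
    (hz2 : z.re ≠ 0) (hz3 : |z.im - u| ≤ |z.re|) :
    ∃ s : ℂ, iteratedDeriv n F s = 0 ∧ s.re ≠ 0 ∧ (s.im - u) ^ 2 ≤ (k + 1) * s.re ^ 2 := by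
  obtain ⟨s, h3, h4, h5, h6⟩ := drift2 hF n k z hz1 hz2
  refine ⟨s, h3, h4, ?_⟩
  have hz4 : (z.im - u) ^ 2 ≤ z.re ^ 2 := by
    rw [← sq_abs (z.im - u), ← sq_abs z.re]
    gcongr
  set a := z.im - u with ha
  set b := z.im - s.im with hb
  set c := s.re ^ 2 - z.re ^ 2 with hc
  have hc0 : 0 ≤ c := by rw [hc]; linarith
  have hk : (0 : ℝ) ≤ k := Nat.cast_nonneg _
  have e : s.im - u = a - b := by rw [ha, hb]; ring
  have h7 : -(2 * (a * b)) ≤ k * a ^ 2 + c := by
    have h8 : (-(2 * (a * b))) ^ 2 ≤ (k * a ^ 2 + c) ^ 2 := by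
      have h9 : a ^ 2 * b ^ 2 ≤ a ^ 2 * (k * c) := mul_le_mul_of_nonneg_left h6 (sq_nonneg a)
      nlinarith [sq_nonneg (k * a ^ 2 - c)]
    exact (abs_le_of_sq_le_sq' h8 (by positivity)).2
  rw [e]
  have h8 : a ^ 2 + c ≤ s.re ^ 2 := by rw [hc]; linarith
  have h9 : ((k : ℝ) + 1) * (a ^ 2 + c) ≤ (k + 1) * s.re ^ 2 :=
    mul_le_mul_of_nonneg_left h8 (by positivity)
  nlinarith

namespace Ctl

variable {K : ℝ} {F : ℂ → ℂ} {c : ℝ → ℝ}

/-- no zeros off the line near the height `T` for the high derivatives -/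
theorem Fre_high (h : Ctl K F c) (hK : 0 < K) {T : ℝ} {j : ℕ} (hj : 2 * K * c T ≤ j) : Fre F j T := by
  intro s h1 h2
  by_contra hcon
  push Not at hcon
  apply h2
  refine h.high j s ?_ h1
  have := h.fe
  have h3 := strip F j s h1
  have h4 : |s.im| ≤ |(|T| + 1)| := by
    rw [abs_of_nonneg (by positivity : 0 ≤ |T| + 1)]
    have := abs_sub_abs_le_abs_sub s.im T
    linarith
  have h5 := h.c_le h4
  have h6 := h.dbl |T| (abs_nonneg T)
  rw [h.c_abs] at h6
  nlinarith

theorem Fre_all (h : Ctl K F c) (hK : 0 < K) {T : ℝ} {n : ℕ} (hf : Fr ((2 * K + 1) * c T) F n T) (j : ℕ) :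
    Fre F (n + j) T := by
  rcases le_or_gt (2 * K * c T) j with h1 | h1
  · refine h.Fre_high hK (h1.trans ?_)
    push_cast
    have : (0 : ℝ) ≤ n := Nat.cast_nonneg n
    linarith
  · intro z h2 h3
    by_contra hcon
    push Not at hcon
    obtain ⟨s, h4, h5, h6⟩ := near_of h.fe n j h2 h3 hcon
    have h7 := hf s h4 h5
    have h8 : ((j : ℝ) + 1) * s.re ^ 2 ≤ (2 * K + 1) * c T * s.re ^ 2 := by
      apply mul_le_mul_of_nonneg_right _ (sq_nonneg _)
      have := h.one T
      nlinarith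
    linarith

/-- the critical points of high order have weight zero -/
theorem vw_zero (h : Ctl K F c) (hK : 0 < K) {u : ℝ} {j : ℕ} (hj : 2 * K * c u ≤ j) (h0 : gn F j u ≠ 0)
    (h1 : gn F (j + 1) u = 0) : vw F j u = 0 :=
  crit_weight h.fe h0 h1 (h.Fre_high hK hj)

/-- **the exact formula** -/
theorem exact (h : Ctl K F c) (hK : 0 < K) (hx : S_Ex F) {n : ℕ} {a b : ℝ} (hab : a < b)
    (ha : Fr ((2 * K + 1) * c a) F n a) (hb : Fr ((2 * K + 1) * c b) F n b) :
    MT F n a b = 2 * ∑ᶠ j, VT F (n + j) a b := by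
  have ca := h.one a
  have cb := h.one b
  set B : ℝ := c a + c b with hB
  have hB2 : 2 ≤ B := by rw [hB]; linarith
  set k0 : ℕ := ⌈2 * K * B⌉₊ with hk0
  have hk1 : 2 * K * B ≤ k0 := Nat.le_ceil _
  have hV : ∀ j : ℕ, k0 ≤ j → VT F j a b = 0 := fun j hj =>
    h.VT_zero hK (hk1.trans (by exact_mod_cast hj))
  have hM : ∀ j : ℕ, k0 ≤ j → MT F j a b = 0 := fun j hj =>
    h.MT_zero hK (hk1.trans (by exact_mod_cast hj))
  have key : ∀ m : ℕ, MT F n a b = MT F (n + m) a b + 2 * ∑ j ∈ Finset.range m, VT F (n + j) a b := by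
    intro m
    induction m with
    | zero => simp
    | succ m ih =>
      rw [ih, Finset.sum_range_succ, hx (n + m) a b hab (h.Fre_all hK ha m) (h.Fre_all hK hb m)]
      rw [← add_assoc n m 1]
      ring
  have h1 : ∑ᶠ j, VT F (n + j) a b = ∑ j ∈ Finset.range k0, VT F (n + j) a b := by
    refine finsum_eq_sum_of_support_subset _ fun j hj => ?_
    rw [Function.mem_support] at hj
    rw [Finset.coe_range, Set.mem_Iio]
    by_contra hcon
    push Not at hcon
    exact hj (hV _ (by omega))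
  rw [h1, key k0, hM (n + k0) (by omega), zero_add]

end Ctl

/-- the zeros with ordinate in `(a, b]` are finitely many -/
theorem zfin {F : ℂ → ℂ} (hF : FE F) (n : ℕ) (a b : ℝ) : (zs F n a b).Finite := by
  have := hF
  exact Pool.Agent.Zk3.G.zs_finite (t_A1 F) n a b

/-- the number of zeros off the line bounds the number of the points -/
theorem card_le {F : ℂ → ℂ} (hF : FE F) (n : ℕ) (a b : ℝ) (S : Finset ℂ)
    (hS : ∀ s ∈ S, s ∈ zs F n a b ∧ s.re ≠ 0) : S.card ≤ MT F n a b := by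
  have hfin : {s : ℂ | s ∈ zs F n a b ∧ s.re ≠ 0}.Finite := (zfin hF n a b).subset fun s hs => hs.1
  unfold MT
  rw [finsum_mem_eq_finite_toFinset_sum _ hfin]
  calc S.card = ∑ _s ∈ S, 1 := by simp
    _ ≤ ∑ s ∈ S, mu F n s := by
        refine Finset.sum_le_sum fun s hs => ?_
        unfold mu
        have h1 : analyticOrderAt (iteratedDeriv n F) s ≠ 0 := by
          rw [Ne, ((iter_diff hF n).analyticAt s).analyticOrderAt_eq_zero]
          simpa using (hS s hs).1.1
        have h2 : analyticOrderAt (iteratedDeriv n F) s ≠ ⊤ := by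
          rw [Ne, analyticOrderAt_eq_top]
          intro h3
          obtain ⟨z, hz⟩ := iter_ne hF n
          have h4 := AnalyticOnNhd.eqOn_zero_of_preconnected_of_eventuallyEq_zero
            (f := iteratedDeriv n F) (U := Set.univ) (fun s _ => (iter_diff hF n).analyticAt s)
            isPreconnected_univ (Set.mem_univ s) h3
          exact hz (h4 (Set.mem_univ z))
        unfold analyticOrderNatAt
        rw [Nat.one_le_iff_ne_zero]
        intro h3
        rcases ENat.toNat_eq_zero.1 h3 with h4 | h4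
        · exact h1 h4
        · exact h2 h4
    _ ≤ ∑ s ∈ hfin.toFinset, mu F n s := by
        refine Finset.sum_le_sum_of_subset fun s hs => ?_
        rw [Set.Finite.mem_toFinset]
        exact hS s hs

end Pool.Agent.Zk6.G
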