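import Pool.Agent.Zk6.G.Rh

set_option autoImplicit false

/-!
# Finitely many zeros off the line and finitely many critical points
-/

namespace Pool.Agent.Zk6.G

open Complex Filter Topology MeasureTheory
open Pool.Agent.Zk4.G

variable {K : ℝ} {F : ℂ → ℂ} {c : ℝ → ℝ}

/-- the critical points of positive weight of order at least `n` -/
def Crt (F : ℂ → ℂ) (n : ℕ) : Set (ℕ × ℝ) :=
  {p : ℕ × ℝ | n ≤ p.1 ∧ gn F p.1 p.2 ≠ 0 ∧ gn F (p.1 + 1) p.2 = 0 ∧ vw F p.1 p.2 ≠ 0}

/-- a finite set of critical points bounds all sums of weights -/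
theorem W_le {n : ℕ} (hfin : (Crt F n).Finite) (a b : ℝ) (m : ℕ) :
    ∑ j ∈ Finset.range m, VT F (n + j) a b ≤ ∑ p ∈ hfin.toFinset, vw F p.1 p.2 := by
  classical
  have h1 : ∀ j : ℕ, VT F (n + j) a b ≤ ∑ p ∈ hfin.toFinset with p.1 = n + j, vw F p.1 p.2 := by
    intro j
    unfold VT
    set A : Set ℝ := {u : ℝ | a < u ∧ u ≤ b ∧ gn F (n + j) u ≠ 0 ∧ gn F (n + j + 1) u = 0} with hA
    have hsub : (A ∩ Function.support (vw F (n + j))).Finite := by
      refine ((hfin.image Prod.snd)).subset ?_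
      rintro u ⟨⟨_, _, h3, h4⟩, h5⟩
      exact ⟨(n + j, u), ⟨by simp, h3, h4, h5⟩, rfl⟩
    rw [finsum_mem_eq_sum_of_inter_support_eq (s := A) (t := hsub.toFinset) (vw F (n + j)) (by
      ext u
      simp only [Set.Finite.coe_toFinset]
      constructor
      · intro hu
        exact ⟨⟨hu.1, hu.2⟩, hu.2⟩
      · rintro ⟨hu, _⟩
        exact ⟨hu.1, hu.2⟩)]
    have h2 : ∑ u ∈ hsub.toFinset, vw F (n + j) u =
        ∑ p ∈ hsub.toFinset.image (fun u : ℝ => ((n + j, u) : ℕ × ℝ)), vw F p.1 p.2 := by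
      rw [Finset.sum_image (by intro x _ y _ hxy; simpa using hxy)]
    rw [h2]
    refine Finset.sum_le_sum_of_subset ?_
    intro p hp
    rw [Finset.mem_image] at hp
    obtain ⟨u, hu, rfl⟩ := hp
    rw [Set.Finite.mem_toFinset] at hu
    obtain ⟨⟨_, _, h3, h4⟩, h5⟩ := hu
    rw [Finset.mem_filter, Set.Finite.mem_toFinset]
    exact ⟨⟨by simp, h3, h4, h5⟩, rfl⟩
  calc ∑ j ∈ Finset.range m, VT F (n + j) a b ≤
      ∑ j ∈ Finset.range m, ∑ p ∈ hfin.toFinset with p.1 = n + j, vw F p.1 p.2 :=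
        Finset.sum_le_sum fun j _ => h1 j
    _ = ∑ p ∈ (Finset.range m).biUnion (fun j => hfin.toFinset.filter fun p => p.1 = n + j), vw F p.1 p.2 := by
        rw [Finset.sum_biUnion]
        intro x _ y _ hxy
        rw [Function.onFun, Finset.disjoint_left]
        intro p hp hq
        rw [Finset.mem_filter] at hp hq
        apply hxy
        omega
    _ ≤ _ := by
        refine Finset.sum_le_sum_of_subset ?_
        intro p hp
        rw [Finset.mem_biUnion] at hp
        obtain ⟨j, _, hj⟩ := hp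
        exact (Finset.mem_filter.1 hj).1

theorem W_fin_le {n : ℕ} (hfin : (Crt F n).Finite) (a b : ℝ) :
    ∑ᶠ j, VT F (n + j) a b ≤ ∑ p ∈ hfin.toFinset, vw F p.1 p.2 := by
  by_cases hs : (Function.support fun j => VT F (n + j) a b).Finite
  · obtain ⟨m, hm⟩ : ∃ m : ℕ, ∀ j ∈ hs.toFinset, j < m := by
      refine ⟨hs.toFinset.sup id + 1, fun j hj => ?_⟩
      have := Finset.le_sup (f := id) hj
      simp only [id] at this
      omega
    rw [finsum_eq_sum_of_support_subset (s := Finset.range m) _ (by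
      intro j hj
      rw [Finset.coe_range, Set.mem_Iio]
      exact hm j (by rw [Set.Finite.mem_toFinset]; exact hj))]
    exact W_le hfin a b m
  · rw [finsum_of_infinite_support hs]
    exact Nat.zero_le _

/-- **(6)** finitely many zeros off the line -/
theorem fin_iff (h : Ctl K F c) (hK : 0 < K) (hx : S_Ex F) (hs : Slow c) (n : ℕ) :
    {s : ℂ | iteratedDeriv n F s = 0 ∧ s.re ≠ 0}.Finite ↔ (Crt F n).Finite := by
  constructor
  · intro hfin
    -- bound of the ordinates
    obtain ⟨R, hR⟩ : ∃ R : ℝ, ∀ s ∈ hfin.toFinset, |s.im| ≤ R :=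
      ⟨∑ s ∈ hfin.toFinset, |s.im|, fun s hs =>
        Finset.single_le_sum (f := fun s : ℂ => |s.im|) (fun i _ => abs_nonneg _) hs⟩
    obtain ⟨T0, hT0⟩ := hs 1 one_pos
    set U : ℝ := |T0| + 2 * |R| + 1 + 4 * (K + 1) with hU
    have hU0 : 0 < U := by positivity
    have key : ∀ p ∈ Crt F n, |p.2| ≤ U ∧ (p.1 : ℝ) < 2 * K * c U := by
      rintro ⟨j, u⟩ ⟨h1, h2, h3, h4⟩
      simp only at h1 h2 h3 h4 ⊢
      have hju : (j : ℝ) < 2 * K * c u := by
        by_contra hcon
        push Not at hcon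
        exact h4 (h.vw_zero hK hcon h2 h3)
      have hu : |u| ≤ U := by
        by_contra hcon
        push Not at hcon
        obtain ⟨k, rfl⟩ := Nat.exists_eq_add_of_le h1
        obtain ⟨s, h5, h6, h7⟩ := t_A7 h.fe n k u h2 h3 h4
        have h8 := hR s (by rw [Set.Finite.mem_toFinset]; exact ⟨h5, h6⟩)
        have := h.fe
        have h9 := abs_le.1 (strip F n s h5)
        have h10 : s.re ^ 2 ≤ 1 / 4 := by nlinarith
        have hT0' := le_abs_self T0
        have hR' := le_abs_self R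
        have hR0 := abs_nonneg R
        have hT00 := abs_nonneg T0
        have h11 : c u ≤ 1 * √|u| := by
          rw [← h.c_abs u]
          exact hT0 _ (by linarith)
        have hu1 : 1 ≤ |u| := by linarith
        have h12 : √|u| ≤ |u| := by
          rw [Real.sqrt_le_left (by linarith)]
          nlinarith
        push_cast at hju
        have hk : (k : ℝ) < 2 * K * |u| := by
          have : (0 : ℝ) ≤ n := Nat.cast_nonneg n
          have : 2 * K * c u ≤ 2 * K * |u| := mul_le_mul_of_nonneg_left (by linarith) (by linarith)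
          linarith
        have h13 : (s.im - u) ^ 2 ≤ (K + 1) * |u| := by
          calc (s.im - u) ^ 2 ≤ (k + 1) * s.re ^ 2 := h7
            _ ≤ (k + 1) * (1 / 4) := mul_le_mul_of_nonneg_left h10 (by positivity)
            _ ≤ (K + 1) * |u| := by nlinarith
        have h14 : |u| / 2 ≤ |s.im - u| := by
          have := abs_sub_abs_le_abs_sub u s.im
          rw [abs_sub_comm] at this
          linarith
        have h15 : (|u| / 2) ^ 2 ≤ (s.im - u) ^ 2 := by
          rw [← sq_abs (s.im - u)]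
          exact pow_le_pow_left₀ (by positivity) h14 2
        have h16 : |u| * |u| ≤ 4 * (K + 1) * |u| := by nlinarith
        have h17 : |u| ≤ 4 * (K + 1) := le_of_mul_le_mul_right h16 (by linarith)
        linarith
      refine ⟨hu, hju.trans_le ?_⟩
      have : c u ≤ c U := h.c_le (by rw [abs_of_pos hU0]; exact hu)
      exact mul_le_mul_of_nonneg_left this (by linarith)
    -- finitely many
    obtain ⟨J, hJ⟩ := exists_nat_gt (2 * K * c U)
    have hf : ∀ j : ℕ, {u : ℝ | |u| ≤ U ∧ gn F (j + 1) u = 0}.Finite := by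
      intro j
      have h1 := zfin h.fe (j + 1) (-U - 1) U
      have h2 : (fun u : ℝ => (I * u : ℂ)) '' {u : ℝ | |u| ≤ U ∧ gn F (j + 1) u = 0} ⊆ zs F (j + 1) (-U - 1) U := by
        rintro _ ⟨u, ⟨h1, h2⟩, rfl⟩
        have h3 := abs_le.1 h1
        refine ⟨(gn_zero h.fe (j + 1) u).1 h2, ?_, ?_⟩
        · simp only [mul_im, I_re, ofReal_im, mul_zero, I_im, ofReal_re, one_mul, zero_add]
          linarith [h3.1]
        · simp only [mul_im, I_re, ofReal_im, mul_zero, I_im, ofReal_re, one_mul, zero_add]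
          exact h3.2
      refine Set.Finite.of_finite_image (h1.subset h2) ?_
      intro x _ y _ hxy
      have h3 : (I * (x : ℂ)) = I * (y : ℂ) := hxy
      have h4 := mul_left_cancel₀ I_ne_zero h3
      exact_mod_cast h4
    have hbig : (⋃ j ∈ Finset.range J, (fun u : ℝ => ((j, u) : ℕ × ℝ)) '' {u : ℝ | |u| ≤ U ∧ gn F (j + 1) u = 0}).Finite := by
      refine Set.Finite.biUnion (Finset.finite_toSet _) fun j _ => (hf j).image _
    refine hbig.subset ?_
    intro p hp
    obtain ⟨h1, h2⟩ := key p hp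
    obtain ⟨_, _, h4, _⟩ := hp
    simp only [Set.mem_iUnion]
    refine ⟨p.1, ?_, p.2, ⟨h1, h4⟩, rfl⟩
    rw [Finset.mem_range]
    have : (p.1 : ℝ) < J := h2.trans hJ
    exact_mod_cast this
  · intro hfin
    set W : ℕ := ∑ p ∈ hfin.toFinset, vw F p.1 p.2 with hW
    have hW1 : ∀ a b : ℝ, ∑ᶠ j, VT F (n + j) a b ≤ W := fun a b => W_fin_le hfin a b
    have hCF : 0 < CF K := by unfold CF CA; positivity
    have hM : ∀ a b : ℝ, a ≤ b → (MT F n a b : ℝ) ≤ (CF K + 2 * W) * (c a + c b) := by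
      intro a b hab
      have h1 := (abs_le.1 ((fin K hK F c h a b hab).2 n)).2
      have h2 : ((∑ᶠ j, VT F (n + j) a b : ℕ) : ℝ) ≤ W := by exact_mod_cast hW1 a b
      have h3 := h.one a
      have h4 := h.one b
      have h5 : (0 : ℝ) ≤ W := Nat.cast_nonneg _
      nlinarith
    have hcard := card_of_windows h n (2 * W) (fun R => by
      obtain ⟨a, b, h1, h2, h3, h4, h5⟩ := exists_window h hK hs n (CF K + 2 * W) (by positivity) hM R
      refine ⟨a, b, h1, h2, ?_⟩
      rw [h.exact hK hx h3 h4 h5]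
      exact Nat.mul_le_mul_left 2 (hW1 a b))
    by_contra hinf
    obtain ⟨S, hS1, hS2⟩ := Set.Infinite.exists_subset_card_eq hinf (2 * W + 1)
    have := hcard S fun s hs => hS1 hs
    omega

end Pool.Agent.Zk6.G
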