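import Pool.Agent.Zk6.G.Exm

set_option autoImplicit false

/-!
# The Riemann hypothesis, and finitely many exceptions, in terms of the critical points
-/

namespace Pool.Agent.Zk6.G

open Complex Filter Topology MeasureTheory
open Pool.Agent.Zk4.G

/-- `c` grows slowly -/
def Slow (c : ℝ → ℝ) : Prop := ∀ ε : ℝ, 0 < ε → ∃ T0 : ℝ, ∀ y : ℝ, T0 ≤ y → c y ≤ ε * √y

variable {K : ℝ} {F : ℂ → ℂ} {c : ℝ → ℝ}

/-- there are free heights -/
theorem exists_free (h : Ctl K F c) (hK : 0 < K) (hs : Slow c) (n : ℕ) (D : ℝ) (hD : 0 < D)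
    (hM : ∀ a b : ℝ, a ≤ b → (MT F n a b : ℝ) ≤ D * (c a + c b)) (σ : ℝ) (hσ : σ * σ = 1) (T1 : ℝ) :
    ∃ T : ℝ, T1 ≤ T ∧ Fr ((2 * K + 1) * c (σ * T)) F n (σ * T) := by
  have hσa : |σ| = 1 := by
    have h1 : |σ| * |σ| = 1 := by rw [← abs_mul, hσ, abs_one]
    nlinarith [abs_nonneg σ]
  set ε : ℝ := 1 / (32 * (D + 1) * (K + 1) + 1) with hε
  have hε0 : 0 < ε := by positivity
  have hDK : 0 ≤ D * (K + 1) := by positivity
  have hε1 : ε ≤ 1 := by
    rw [hε, div_le_one (by positivity)]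
    have : 0 ≤ 32 * (D + 1) * (K + 1) := by positivity
    linarith
  have hε2 : 16 * D * (K + 1) * ε < 1 := by
    rw [hε, mul_one_div, div_lt_one (by positivity)]
    nlinarith
  have hε3 : (K + 1) * (4 * ε) ≤ 1 := by
    rw [hε, mul_one_div, mul_div_assoc', div_le_one (by positivity)]
    nlinarith
  obtain ⟨T0, hT0⟩ := hs ε hε0
  set T : ℝ := max (max T1 T0) 4 + 1 with hT
  have hT1 : T1 ≤ T := by rw [hT]; have := le_max_left T1 T0; have := le_max_left (max T1 T0) 4; linarith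
  have hT00 : T0 ≤ T := by rw [hT]; have := le_max_right T1 T0; have := le_max_left (max T1 T0) 4; linarith
  have hT4 : 4 < T := by rw [hT]; have := le_max_right (max T1 T0) 4; linarith
  set q : ℝ := c (4 * T) with hq
  have hq1 : 1 ≤ q := h.one _
  have hqb : q ≤ ε * √(4 * T) := hT0 _ (by linarith)
  have hqq : q ^ 2 ≤ 4 * ε * T := by
    have h1 : q ^ 2 ≤ (ε * √(4 * T)) ^ 2 := pow_le_pow_left₀ (by linarith) hqb 2
    rw [mul_pow, Real.sq_sqrt (by linarith)] at h1
    have h2 : ε ^ 2 * (4 * T) ≤ ε * (4 * T) := by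
      apply mul_le_mul_of_nonneg_right _ (by linarith)
      nlinarith
    linarith
  by_contra hcon
  push Not at hcon
  -- every height in `[T, 2T]` is blocked
  set r : ℝ := (K + 1) * q with hr
  have hr0 : 0 < r := by positivity
  have hfin : {s : ℂ | s ∈ zs F n (-(4 * T)) (4 * T) ∧ s.re ≠ 0}.Finite :=
    (zfin h.fe n _ _).subset fun s hs => hs.1
  set S : Finset ℂ := hfin.toFinset with hS
  have hcard : (S.card : ℝ) ≤ 2 * D * q := by
    have h1 := card_le h.fe n (-(4 * T)) (4 * T) S (fun s hs => by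
      rw [hS, Set.Finite.mem_toFinset] at hs
      exact hs)
    have h2 := hM (-(4 * T)) (4 * T) (by linarith)
    rw [h.even] at h2
    have h3 : (S.card : ℝ) ≤ MT F n (-(4 * T)) (4 * T) := by exact_mod_cast h1
    linarith
  have hrT : r ≤ T := by
    have h1 : q ≤ q ^ 2 := by nlinarith
    have h2 : (K + 1) * q ^ 2 ≤ (K + 1) * (4 * ε * T) := mul_le_mul_of_nonneg_left hqq (by linarith)
    have h3 : (K + 1) * q ≤ (K + 1) * q ^ 2 := mul_le_mul_of_nonneg_left h1 (by linarith)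
    have h4 : (K + 1) * (4 * ε * T) ≤ T := by
      have : (K + 1) * (4 * ε * T) = (K + 1) * (4 * ε) * T := by ring
      rw [this]
      have := mul_le_mul_of_nonneg_right hε3 (by linarith : (0 : ℝ) ≤ T)
      linarith
    linarith
  have hcov : Set.Icc T (2 * T) ⊆ ⋃ s ∈ S, Set.Icc (σ * s.im - r) (σ * s.im + r) := by
    intro t ht
    have hf : ¬ Fr ((2 * K + 1) * c (σ * t)) F n (σ * t) := hcon t (hT1.trans ht.1)
    unfold Fr at hf
    push Not at hf
    obtain ⟨s, h1, h2, h3⟩ := hf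
    have hcs : c (σ * t) ≤ q := by
      have h4 : |σ * t| ≤ |4 * T| := by
        rw [abs_mul, hσa, one_mul, abs_of_pos (by linarith [ht.1]), abs_of_pos (by linarith)]
        linarith [ht.2]
      exact h.c_le h4
    have := h.fe
    have h5 := abs_le.1 (strip F n s h1)
    have h6 : s.re ^ 2 ≤ 1 / 4 := by nlinarith
    have hc1 := h.one (σ * t)
    have h7 : (s.im - σ * t) ^ 2 ≤ r ^ 2 := by
      have h8 : (2 * K + 1) * c (σ * t) * s.re ^ 2 ≤ (2 * K + 1) * q * (1 / 4) := by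
        apply mul_le_mul _ h6 (sq_nonneg _) (by positivity)
        exact mul_le_mul_of_nonneg_left hcs (by linarith)
      have h9 : (2 * K + 1) * q * (1 / 4) ≤ r ^ 2 := by
        rw [hr, mul_pow]
        have h10 : q ≤ q ^ 2 := by nlinarith
        have h11 : (2 * K + 1) * (1 / 4) ≤ (K + 1) ^ 2 := by nlinarith
        calc (2 * K + 1) * q * (1 / 4) = (2 * K + 1) * (1 / 4) * q := by ring
          _ ≤ (K + 1) ^ 2 * q := mul_le_mul_of_nonneg_right h11 (by linarith)
          _ ≤ (K + 1) ^ 2 * q ^ 2 := mul_le_mul_of_nonneg_left h10 (by positivity)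
      exact h3.trans (h8.trans h9)
    have h8 : |s.im - σ * t| ≤ r := abs_le_of_sq_le_sq h7 hr0.le
    have h9 : |σ * s.im - t| ≤ r := by
      have e : σ * s.im - t = σ * (s.im - σ * t) := by
        have : σ * (s.im - σ * t) = σ * s.im - σ * σ * t := by ring
        rw [this, hσ, one_mul]
      rw [e, abs_mul, hσa, one_mul]
      exact h8
    have h10 := abs_le.1 h9
    have hmem : s ∈ S := by
      rw [hS, Set.Finite.mem_toFinset]
      refine ⟨⟨h1, ?_, ?_⟩, h2⟩
      · have h11 : |s.im| ≤ |s.im - σ * t| + |σ * t| := by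
          have := abs_add_le (s.im - σ * t) (σ * t)
          rwa [sub_add_cancel] at this
        have h12 : |σ * t| = t := by rw [abs_mul, hσa, one_mul, abs_of_pos (by linarith [ht.1])]
        have h13 := neg_abs_le s.im
        rw [h12] at h11
        linarith [ht.2]
      · have h11 : |s.im| ≤ |s.im - σ * t| + |σ * t| := by
          have := abs_add_le (s.im - σ * t) (σ * t)
          rwa [sub_add_cancel] at this
        have h12 : |σ * t| = t := by rw [abs_mul, hσa, one_mul, abs_of_pos (by linarith [ht.1])]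
        have h13 := le_abs_self s.im
        rw [h12] at h11
        linarith [ht.2]
    simp only [Set.mem_iUnion, Set.mem_Icc]
    exact ⟨s, hmem, by linarith [h10.2], by linarith [h10.1]⟩
  have hvol : ENNReal.ofReal T ≤ S.card * ENNReal.ofReal (2 * r) := by
    have h1 : volume (Set.Icc T (2 * T)) ≤ ∑ s ∈ S, volume (Set.Icc (σ * s.im - r) (σ * s.im + r)) :=
      (measure_mono hcov).trans (measure_biUnion_finset_le S _)
    rw [Real.volume_Icc] at h1
    have h2 : ∀ s ∈ S, volume (Set.Icc (σ * s.im - r) (σ * s.im + r)) = ENNReal.ofReal (2 * r) := by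
      intro s _
      rw [Real.volume_Icc]
      congr 1
      ring
    rw [Finset.sum_congr rfl h2, Finset.sum_const, nsmul_eq_mul] at h1
    have e : 2 * T - T = T := by ring
    rwa [e] at h1
  have hreal : T ≤ S.card * (2 * r) := by
    rw [← ENNReal.ofReal_natCast, ← ENNReal.ofReal_mul (Nat.cast_nonneg _)] at hvol
    exact (ENNReal.ofReal_le_ofReal_iff (by positivity)).1 hvol
  have h1 : (S.card : ℝ) * (2 * r) ≤ 2 * D * q * (2 * r) := mul_le_mul_of_nonneg_right hcard (by linarith)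
  have h2 : 2 * D * q * (2 * r) = 4 * D * (K + 1) * q ^ 2 := by rw [hr]; ring
  have h3 : 4 * D * (K + 1) * q ^ 2 ≤ 4 * D * (K + 1) * (4 * ε * T) :=
    mul_le_mul_of_nonneg_left hqq (by positivity)
  have h4 : 4 * D * (K + 1) * (4 * ε * T) = 16 * D * (K + 1) * ε * T := by ring
  nlinarith

/-- both ends -/
theorem exists_window (h : Ctl K F c) (hK : 0 < K) (hs : Slow c) (n : ℕ) (D : ℝ) (hD : 0 < D)
    (hM : ∀ a b : ℝ, a ≤ b → (MT F n a b : ℝ) ≤ D * (c a + c b)) (R : ℝ) :
    ∃ a b : ℝ, a < -R ∧ R < b ∧ a < b ∧ Fr ((2 * K + 1) * c a) F n a ∧ Fr ((2 * K + 1) * c b) F n b := by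
  obtain ⟨b, hb1, hb2⟩ := exists_free h hK hs n D hD hM 1 (by norm_num) (|R| + 1)
  obtain ⟨a, ha1, ha2⟩ := exists_free h hK hs n D hD hM (-1) (by norm_num) (|R| + 1)
  rw [one_mul] at hb2
  have hR := abs_nonneg R
  have hR1 := le_abs_self R
  have hR2 := neg_abs_le R
  exact ⟨-1 * a, b, by linarith, by linarith, by linarith, ha2, hb2⟩

/-- the number of zeros off the line, from windows -/
theorem card_of_windows (h : Ctl K F c) (n : ℕ) (W : ℕ)
    (hW : ∀ R : ℝ, ∃ a b : ℝ, a < -R ∧ R < b ∧ MT F n a b ≤ W) (S : Finset ℂ)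
    (hS : ∀ s ∈ S, iteratedDeriv n F s = 0 ∧ s.re ≠ 0) : S.card ≤ W := by
  obtain ⟨R, hR⟩ : ∃ R : ℝ, ∀ s ∈ S, |s.im| ≤ R := by
    refine ⟨∑ s ∈ S, |s.im|, fun s hs => ?_⟩
    exact Finset.single_le_sum (f := fun s : ℂ => |s.im|) (fun i _ => abs_nonneg _) hs
  obtain ⟨a, b, h1, h2, h3⟩ := hW R
  refine (card_le h.fe n a b S fun s hs => ?_).trans h3
  have h4 := abs_le.1 (hR s hs)
  exact ⟨⟨(hS s hs).1, by linarith [h4.1], by linarith [h4.2]⟩, (hS s hs).2⟩

/-- **(5)** the Riemann hypothesis for `F` -/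
theorem rh_iff (h : Ctl K F c) (hK : 0 < K) (hx : S_Ex F) (hs : Slow c) :
    (∀ s : ℂ, F s = 0 → s.re = 0) ↔ ∀ (j : ℕ) (u : ℝ), gn F j u ≠ 0 → gn F (j + 1) u = 0 → vw F j u = 0 := by
  constructor
  · intro hR j u h0 h1
    by_contra hw
    obtain ⟨s, h2, h3, _⟩ := t_A7 h.fe 0 j u (by simpa using h0) (by simpa using h1) (by simpa using hw)
    rw [iteratedDeriv_zero] at h2
    exact h3 (hR s h2)
  · intro hw s hs0
    have hV : ∀ (j : ℕ) (a b : ℝ), VT F j a b = 0 := by
      intro j a b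
      unfold VT
      refine finsum_mem_eq_zero_of_forall_eq_zero ?_
      rintro u ⟨_, _, h3, h4⟩
      exact hw j u h3 h4
    have hV2 : ∀ (a b : ℝ), ∑ᶠ j, VT F (0 + j) a b = 0 := fun a b =>
      finsum_eq_zero_of_forall_eq_zero fun j => hV _ a b
    have hCF : 0 < CF K := by unfold CF CA; positivity
    have hM : ∀ a b : ℝ, a ≤ b → (MT F 0 a b : ℝ) ≤ CF K * (c a + c b) := by
      intro a b hab
      have h1 := (fin K hK F c h a b hab).2 0
      rw [hV2] at h1
      have h2 := (abs_le.1 h1).2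
      simpa using h2
    by_contra hre
    have h1 := card_of_windows h 0 0 (fun R => by
      obtain ⟨a, b, h1, h2, h3, h4, h5⟩ := exists_window h hK hs 0 (CF K) hCF hM R
      refine ⟨a, b, h1, h2, ?_⟩
      rw [h.exact hK hx h3 h4 h5, hV2]) {s} (by
        intro z hz
        rw [Finset.mem_singleton] at hz
        subst hz
        exact ⟨by rw [iteratedDeriv_zero]; exact hs0, hre⟩)
    simp at h1

theorem slow_of_log {A : ℝ} (hA : ∀ y : ℝ, 1 ≤ y → c y ≤ A * (1 + Real.log y)) : Slow c := by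
  intro ε hε
  have h1 : Tendsto (fun y : ℝ => A * (1 + Real.log y) / √y) atTop (𝓝 0) := by
    have h2 : Tendsto (fun y : ℝ => Real.log y / y ^ (1 / 2 : ℝ)) atTop (𝓝 0) :=
      (isLittleO_log_rpow_atTop (by norm_num)).tendsto_div_nhds_zero
    have h3 : Tendsto (fun y : ℝ => 1 / y ^ (1 / 2 : ℝ)) atTop (𝓝 0) := by
      have := (tendsto_rpow_atTop (by norm_num : (0 : ℝ) < 1 / 2))
      refine this.inv_tendsto_atTop.congr fun y => ?_
      exact (one_div _).symm
    have h4 := (h3.add h2).const_mul A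
    rw [add_zero, mul_zero] at h4
    refine h4.congr fun y => ?_
    rw [Real.sqrt_eq_rpow]
    ring
  have h5 := (h1.eventually (gt_mem_nhds hε)).and (eventually_ge_atTop (1 : ℝ))
  obtain ⟨T0, hT0⟩ := eventually_atTop.1 h5
  refine ⟨T0, fun y hy => ?_⟩
  obtain ⟨h6, h7⟩ := hT0 y hy
  have h8 : 0 < √y := Real.sqrt_pos.2 (by linarith)
  rw [div_lt_iff₀ h8] at h6
  exact (hA y h7).trans h6.le

end Pool.Agent.Zk6.G
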