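import Pool.Agent.Zk6.G.Grow
import Pool.Agent.Zk6.G.A7
import Pool.Agent.Zk69.G.A4
import Pool.Agent.Zk3.G.A56

set_option autoImplicit false

/-!
# The abstract theorem `S_A`
-/

namespace Pool.Agent.Zk6.G

open Pool.Agent.Zk4.G

/-- the absolute constant -/
noncomputable def CA : ℝ := 16 * 60000 + 16 * 150 + 1 + 1

theorem t_SA4 {F : ℂ → ℂ} (hF : FE F) : S_A4 F (16 * 60000 + 16 * 150 + 1) :=
  Pool.Agent.Zk69.G.t_A4 (by norm_num) (by norm_num) hF (t_A1 F (hF := hF)) (A2_of (F := F) (t_Gr F (hF := hF)))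
    (A3_of (F := F) (t_Gr F (hF := hF)))

theorem t_SA6 {F : ℂ → ℂ} (hF : FE F) : S_A6 F CA := by
  have := hF
  exact Pool.Agent.Zk3.G.t_A6 (t_A1 F) (t_SA4 hF)

/-- **the abstract theorem** -/
theorem t_SA : S_A := ⟨CA, by unfold CA; norm_num, fun _ hF => ⟨t_SA6 hF, t_A7 hF⟩⟩

end Pool.Agent.Zk6.G
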