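import Pool.Agent.Zk6.G.A7
import Pool.Agent.Zk4.G.Sc

set_option autoImplicit false

/-!
# The scaling `F(z) = u Λ(h + 3z)`: the critical points
-/

namespace Pool.Agent.Zk4.G.Sc

open Complex Filter Topology
open Pool.Agent.Zk4.G Pool.Agent.Zk6.G

variable {h : ℝ} {Λ F : ℂ → ℂ} {u : ℂ}

theorem line (h t : ℝ) : (h : ℂ) + 3 * (I * ((t / 3 : ℝ) : ℂ)) = h + I * t := by
  push_cast; ring

theorem Scl.gn (H : Scl h Λ F u) (hF : FE F) (n : ℕ) (t : ℝ) :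
    gn F n (t / 3) = 0 ↔ iteratedDeriv n Λ (h + I * t) = 0 := by
  rw [gn_zero hF, H.zero, line]

theorem Scl.gn_abs (H : Scl h Λ F u) (hF : FE F) (n : ℕ) (t : ℝ) :
    |Pool.Agent.Zk4.G.gn F n (t / 3)| = ‖u * 3 ^ n‖ * ‖iteratedDeriv n Λ (h + I * t)‖ := by
  have e0 : ((Pool.Agent.Zk4.G.gn F n (t / 3) : ℝ) : ℂ) = I ^ n * iteratedDeriv n F (I * ((t / 3 : ℝ) : ℂ)) :=
    Complex.conj_eq_iff_re.1 (gn_real hF n (t / 3))
  have e1 : |Pool.Agent.Zk4.G.gn F n (t / 3)| = ‖((Pool.Agent.Zk4.G.gn F n (t / 3) : ℝ) : ℂ)‖ := by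
    rw [Complex.norm_real, Real.norm_eq_abs]
  rw [e1, e0, norm_mul, norm_pow, Complex.norm_I, one_pow, one_mul, H.it, norm_mul, line]

theorem Scl.weight (H : Scl h Λ F u) (hF : FE F) (j : ℕ) (t : ℝ) : weight h Λ j t = vw F j (t / 3) := by
  classical
  unfold Pool.Agent.Zk4.G.Sc.weight vw
  have h1 : Pool.Agent.Zk4.G.mu F (j + 1) (I * ((t / 3 : ℝ) : ℂ)) = analyticOrderNatAt (iteratedDeriv (j + 1) Λ) (h + I * t) := by
    rw [H.mu, line]
  have hc : 0 < ‖u * 3 ^ j‖ := norm_pos_iff.2 (H.c_ne j)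
  have h2 : IsLocalMin (fun u : ℝ => ‖iteratedDeriv j Λ (h + I * u)‖) t ↔
      IsLocalMin (fun y : ℝ => |Pool.Agent.Zk4.G.gn F j y|) (t / 3) := by
    have hcont : Continuous fun u : ℝ => u / 3 := by fun_prop
    have hcont2 : Continuous fun u : ℝ => 3 * u := by fun_prop
    constructor
    · intro hm
      have h3 : Tendsto (fun u : ℝ => 3 * u) (𝓝 (t / 3)) (𝓝 t) := by
        have := hcont2.tendsto (t / 3)
        rwa [mul_div_cancel₀ t (by norm_num : (3 : ℝ) ≠ 0)] at this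
      have h4 : ∀ᶠ u in 𝓝 (t / 3), ‖iteratedDeriv j Λ (h + I * t)‖ ≤ ‖iteratedDeriv j Λ (h + I * ((3 * u : ℝ) : ℂ))‖ :=
        h3.eventually hm
      filter_upwards [h4] with u hu
      have e1 := H.gn_abs hF j t
      have e2 := H.gn_abs hF j (3 * u)
      rw [mul_div_cancel_left₀ u (by norm_num : (3 : ℝ) ≠ 0)] at e2
      rw [e1, e2]
      exact mul_le_mul_of_nonneg_left hu hc.le
    · intro hm
      have h4 : ∀ᶠ u in 𝓝 t, |Pool.Agent.Zk4.G.gn F j (t / 3)| ≤ |Pool.Agent.Zk4.G.gn F j (u / 3)| :=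
        (hcont.tendsto t).eventually hm
      filter_upwards [h4] with u hu
      rw [H.gn_abs hF, H.gn_abs hF] at hu
      exact le_of_mul_le_mul_left hu hc
  rw [h1]
  simp only [h2]

theorem Scl.V' (H : Scl h Λ F u) (hF : FE F) (j : ℕ) (a b : ℝ) :
    V h Λ j a b = VT F j (a / 3) (b / 3) := by
  unfold Pool.Agent.Zk4.G.Sc.V VT
  refine finsum_mem_eq_of_bijOn (fun t : ℝ => t / 3) ?_ ?_
  · refine ⟨?_, fun p _ q _ hpq => by simp only at hpq; linarith, ?_⟩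
    · rintro t ⟨h1, h2, h3, h4⟩
      exact ⟨by simp only; linarith, by simp only; linarith, fun h5 => h3 ((H.gn hF j t).1 h5),
        (H.gn hF (j + 1) t).2 h4⟩
    · rintro u ⟨h1, h2, h3, h4⟩
      have e : 3 * u / 3 = u := by ring
      refine ⟨3 * u, ⟨by linarith, by linarith, fun h5 => h3 ?_, ?_⟩, e⟩
      · rw [← e]; exact (H.gn hF j (3 * u)).2 h5
      · rw [← e] at h4; exact (H.gn hF (j + 1) (3 * u)).1 h4
  · intro t _
    exact H.weight hF j t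

theorem Scl.W' (H : Scl h Λ F u) (hF : FE F) (n : ℕ) (a b : ℝ) :
    W h Λ n a b = ∑ᶠ j, VT F (n + j) (a / 3) (b / 3) := by
  unfold Pool.Agent.Zk4.G.Sc.W
  exact finsum_congr fun k => H.V' hF (n + k) a b

end Pool.Agent.Zk4.G.Sc
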