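import Pool.Agent.Zk6.G.ScV
import Pool.Agent.Zk6.G.Fi

set_option autoImplicit false

/-!
# The transfer to the completed L-function: all statements for `Λ`
-/

namespace Pool.Agent.Zk6.G

open Complex Filter Topology
open Pool.Agent.Zk4.G
open Pool.Agent.Zk4.G.Sc

/-- the statements on `Λ`, with the critical line `Re s = x` and the logarithmic conductor `ℓ` -/
structure FP (C : ℝ) (x : ℝ) (ℓ : ℝ → ℝ) (Λ : ℂ → ℂ) : Prop where
  count : ∀ (n : ℕ) (a b : ℝ), a ≤ b → |(M x Λ n a b : ℝ) - 2 * W x Λ n a b| ≤ C * (ℓ a + ℓ b)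
  exact : ∀ (n : ℕ) (a b : ℝ), a < b → (∀ T : ℝ, T = a ∨ T = b → ∀ s : ℂ, iteratedDeriv n Λ s = 0 → s.re ≠ x →
    C * √(ℓ T) * |s.re - x| < |s.im - T|) → M x Λ n a b = 2 * W x Λ n a b
  near : ∀ (n k : ℕ) (t : ℝ), iteratedDeriv (n + k) Λ (x + I * t) ≠ 0 → iteratedDeriv (n + k + 1) Λ (x + I * t) = 0 →
    weight x Λ (n + k) t ≠ 0 → ∃ s : ℂ, iteratedDeriv n Λ s = 0 ∧ s.re ≠ x ∧
      (s.im - t) ^ 2 ≤ (k + 1) * (s.re - x) ^ 2
  order : ∀ (j : ℕ) (t : ℝ), iteratedDeriv j Λ (x + I * t) ≠ 0 → iteratedDeriv (j + 1) Λ (x + I * t) = 0 →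
    weight x Λ j t ≠ 0 → (j : ℝ) < C * ℓ t
  rh : (∀ s : ℂ, Λ s = 0 → s.re = x) ↔ ∀ (j : ℕ) (t : ℝ), iteratedDeriv j Λ (x + I * t) ≠ 0 →
    iteratedDeriv (j + 1) Λ (x + I * t) = 0 → weight x Λ j t = 0
  fin : ∀ n : ℕ, {s : ℂ | iteratedDeriv n Λ s = 0 ∧ s.re ≠ x}.Finite ↔
    {p : ℕ × ℝ | n ≤ p.1 ∧ iteratedDeriv p.1 Λ (x + I * p.2) ≠ 0 ∧ iteratedDeriv (p.1 + 1) Λ (x + I * p.2) = 0 ∧
      weight x Λ p.1 p.2 ≠ 0}.Finite

/-- the constant -/
noncomputable def CT (K : ℝ) : ℝ := 2 * CF K + 4 * K + 3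

variable {K x : ℝ} {F Λ : ℂ → ℂ} {u : ℂ} {c ℓ : ℝ → ℝ}

theorem aff_surj (x : ℝ) (s : ℂ) : (x : ℂ) + 3 * ((s - x) / 3) = s := by ring

theorem aff_re' (x : ℝ) (s : ℂ) : ((s - x) / 3).re = (s.re - x) / 3 := by
  have h := aff_re x ((s - x) / 3)
  have h2 : aff x ((s - x) / 3) = s := aff_surj x s
  rw [h2] at h
  linarith

theorem aff_im' (x : ℝ) (s : ℂ) : ((s - x) / 3).im = s.im / 3 := by
  have h := aff_im x ((s - x) / 3)
  have h2 : aff x ((s - x) / 3) = s := aff_surj x s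
  rw [h2] at h
  linarith

theorem trf (H : Scl x Λ F u) (h : Ctl K F c) (hK : 0 < K) (hx : S_Ex F) (hs : Slow c)
    (hl : ∀ T, c (T / 3) ≤ 2 * ℓ T) : FP (CT K) x ℓ Λ := by
  have hF := h.fe
  have hCF0 : 0 < CF K := by unfold CF CA; positivity
  have hCT : 2 * CF K ≤ CT K := by unfold CT; linarith
  have hCT2 : 4 * K + 3 ≤ CT K := by unfold CT; linarith
  have hℓ : ∀ T, 1 / 2 ≤ ℓ T := fun T => by
    have := hl T
    have := h.one (T / 3)
    linarith
  have hzero : ∀ (n : ℕ) (s : ℂ), iteratedDeriv n Λ s = 0 ↔ iteratedDeriv n F ((s - x) / 3) = 0 := by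
    intro n s
    rw [H.zero, aff_surj]
  refine ⟨?_, ?_, ?_, ?_, ?_, ?_⟩
  · intro n a b hab
    rw [H.M', H.W' hF]
    have h1 := (fin K hK F c h (a / 3) (b / 3) (by linarith)).2 n
    refine h1.trans ?_
    have h2 := hl a
    have h3 := hl b
    calc CF K * (c (a / 3) + c (b / 3)) ≤ CF K * (2 * ℓ a + 2 * ℓ b) :=
          mul_le_mul_of_nonneg_left (by linarith) hCF0.le
      _ = 2 * CF K * (ℓ a + ℓ b) := by ring
      _ ≤ CT K * (ℓ a + ℓ b) := mul_le_mul_of_nonneg_right hCT (by linarith [hℓ a, hℓ b])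
  · intro n a b hab hfree
    rw [H.M', H.W' hF]
    have key : ∀ T : ℝ, T = a ∨ T = b → Fr ((2 * K + 1) * c (T / 3)) F n (T / 3) := by
      intro T hT z hz1 hz2
      have h1 := hfree T hT (x + 3 * z) ((H.zero n z).1 hz1)
      have e1 : ((x : ℂ) + 3 * z).re = x + 3 * z.re := aff_re x z
      have e2 : ((x : ℂ) + 3 * z).im = 3 * z.im := aff_im x z
      rw [e1, e2] at h1
      have h2 := h1 (by intro h3; apply hz2; linarith)
      have e3 : x + 3 * z.re - x = 3 * z.re := by ring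
      rw [e3, abs_mul, abs_of_pos (by norm_num : (0 : ℝ) < 3)] at h2
      have h4 : (CT K * √(ℓ T) * (3 * |z.re|)) ^ 2 < |3 * z.im - T| ^ 2 :=
        pow_lt_pow_left₀ h2 (by
          have : 0 ≤ CT K := by linarith
          positivity) (by norm_num)
      rw [sq_abs, mul_pow, mul_pow, mul_pow, Real.sq_sqrt (by linarith [hℓ T]), sq_abs] at h4
      have h5 : (2 * K + 1) * c (T / 3) ≤ CT K ^ 2 * ℓ T := by
        have h6 : (2 * K + 1) * c (T / 3) ≤ (2 * K + 1) * (2 * ℓ T) :=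
          mul_le_mul_of_nonneg_left (hl T) (by linarith)
        have h7 : (4 * K + 2) ≤ CT K ^ 2 := by nlinarith
        have h8 : (4 * K + 2) * ℓ T ≤ CT K ^ 2 * ℓ T := mul_le_mul_of_nonneg_right h7 (by linarith [hℓ T])
        linarith
      have h6 : (2 * K + 1) * c (T / 3) * z.re ^ 2 ≤ CT K ^ 2 * ℓ T * z.re ^ 2 :=
        mul_le_mul_of_nonneg_right h5 (sq_nonneg _)
      have e4 : (3 * z.im - T) ^ 2 = 9 * (z.im - T / 3) ^ 2 := by ring
      rw [e4] at h4
      nlinarith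
    exact h.exact hK hx (by linarith) (key a (Or.inl rfl)) (key b (Or.inr rfl))
  · intro n k t h0 h1 hw
    rw [H.weight hF] at hw
    obtain ⟨z, h2, h3, h4⟩ := t_A7 hF n k (t / 3) (fun h5 => h0 ((H.gn hF _ t).1 h5)) ((H.gn hF _ t).2 h1) hw
    refine ⟨x + 3 * z, (H.zero n z).1 h2, ?_, ?_⟩
    · have e1 : ((x : ℂ) + 3 * z).re = x + 3 * z.re := aff_re x z
      rw [e1]
      intro h5
      apply h3
      linarith
    · have e1 : ((x : ℂ) + 3 * z).re = x + 3 * z.re := aff_re x z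
      have e2 : ((x : ℂ) + 3 * z).im = 3 * z.im := aff_im x z
      rw [e1, e2]
      have e3 : (3 * z.im - t) ^ 2 = 9 * (z.im - t / 3) ^ 2 := by ring
      have e4 : (x + 3 * z.re - x) ^ 2 = 9 * z.re ^ 2 := by ring
      rw [e3, e4]
      linarith
  · intro j t h0 h1 hw
    rw [H.weight hF] at hw
    by_contra hcon
    push Not at hcon
    apply hw
    refine h.vw_zero hK ?_ (fun h5 => h0 ((H.gn hF _ t).1 h5)) ((H.gn hF _ t).2 h1)
    refine le_trans ?_ hcon
    have h2 : 2 * K * c (t / 3) ≤ 2 * K * (2 * ℓ t) := mul_le_mul_of_nonneg_left (hl t) (by linarith)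
    have h3 : (4 * K) * ℓ t ≤ CT K * ℓ t := mul_le_mul_of_nonneg_right (by linarith) (by linarith [hℓ t])
    linarith
  · have h1 : (∀ s : ℂ, Λ s = 0 → s.re = x) ↔ ∀ s : ℂ, F s = 0 → s.re = 0 := by
      constructor
      · intro h2 z hz
        have h3 := h2 (x + 3 * z) (by
          have := (H.zero 0 z).1 (by rw [iteratedDeriv_zero]; exact hz)
          rwa [iteratedDeriv_zero] at this)
        have e1 : ((x : ℂ) + 3 * z).re = x + 3 * z.re := aff_re x z
        rw [e1] at h3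
        linarith
      · intro h2 s hs0
        have h3 := h2 ((s - x) / 3) (by
          have := (hzero 0 s).1 (by rw [iteratedDeriv_zero]; exact hs0)
          rwa [iteratedDeriv_zero] at this)
        rw [aff_re'] at h3
        linarith
    rw [h1, rh_iff h hK hx hs]
    constructor
    · intro h2 j t h3 h4
      rw [H.weight hF]
      exact h2 j (t / 3) (fun h5 => h3 ((H.gn hF _ t).1 h5)) ((H.gn hF _ t).2 h4)
    · intro h2 j y h3 h4
      have e : 3 * y / 3 = y := by ring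
      have h5 := h2 j (3 * y) (fun h6 => h3 (by rw [← e]; exact (H.gn hF _ (3 * y)).2 h6))
        ((H.gn hF _ (3 * y)).1 (by rw [e]; exact h4))
      rw [H.weight hF, e] at h5
      exact h5
  · intro n
    have h1 : {s : ℂ | iteratedDeriv n Λ s = 0 ∧ s.re ≠ x} = aff x '' {s : ℂ | iteratedDeriv n F s = 0 ∧ s.re ≠ 0} := by
      ext s
      constructor
      · rintro ⟨h2, h3⟩
        refine ⟨(s - x) / 3, ⟨(hzero n s).1 h2, ?_⟩, aff_surj x s⟩
        rw [aff_re']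
        intro h4
        apply h3
        linarith
      · rintro ⟨z, ⟨h2, h3⟩, rfl⟩
        refine ⟨(H.zero n z).1 h2, ?_⟩
        rw [aff_re]
        intro h4
        apply h3
        linarith
    have h2 : {p : ℕ × ℝ | n ≤ p.1 ∧ iteratedDeriv p.1 Λ (x + I * p.2) ≠ 0 ∧
        iteratedDeriv (p.1 + 1) Λ (x + I * p.2) = 0 ∧ weight x Λ p.1 p.2 ≠ 0} =
        (fun p : ℕ × ℝ => ((p.1, 3 * p.2) : ℕ × ℝ)) '' Crt F n := by
      ext ⟨j, t⟩
      constructor
      · rintro ⟨h3, h4, h5, h6⟩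
        simp only at h3 h4 h5 h6
        refine ⟨(j, t / 3), ⟨h3, fun h7 => h4 ((H.gn hF _ t).1 h7), (H.gn hF _ t).2 h5, ?_⟩, ?_⟩
        · rw [H.weight hF] at h6
          exact h6
        · simp only [Prod.mk.injEq, true_and]
          ring
      · rintro ⟨⟨j', y⟩, ⟨h3, h4, h5, h6⟩, h7⟩
        simp only [Prod.mk.injEq] at h7
        obtain ⟨rfl, rfl⟩ := h7
        simp only at h3 h4 h5 h6
        have e : 3 * y / 3 = y := by ring
        refine ⟨h3, fun h8 => h4 ?_, ?_, ?_⟩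
        · rw [← e]; exact (H.gn hF _ (3 * y)).2 h8
        · exact (H.gn hF _ (3 * y)).1 (by rw [e]; exact h5)
        · simp only
          rw [H.weight hF, e]
          exact h6
    rw [h1, h2, Set.finite_image_iff (aff x).injective.injOn, Set.finite_image_iff (by
      rintro ⟨a, b⟩ _ ⟨c, d⟩ _ hab
      simp only [Prod.mk.injEq] at hab
      obtain ⟨rfl, h3⟩ := hab
      have : b = d := by linarith
      rw [this])]
    exact fin_iff h hK hx hs n

end Pool.Agent.Zk6.G
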